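import Mathlib

/-! A lattice is determined by `g₂` and `g₃`. -/

set_option autoImplicit false

namespace Pool.Agent.H453.OM

open Filter Topology
open scoped PeriodPair

variable {L L' : PeriodPair}

/-- near zero -/
theorem ev_notMem (L : PeriodPair) (x : ℂ) : ∀ᶠ z in 𝓝[≠] x, z ∉ L.lattice := by
  have h := L.compl_lattice_sdiff_singleton_mem_nhds x
  filter_upwards [mem_nhdsWithin_of_mem_nhds h, self_mem_nhdsWithin] with z hz hz2 hz3
  exact hz ⟨hz3, hz2⟩

/-- the difference of the two functions is analytic at zero -/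
noncomputable def dif (L L' : PeriodPair) (z : ℂ) : ℂ := L.weierstrassPExcept 0 z - L'.weierstrassPExcept 0 z

theorem dif_analytic : AnalyticAt ℂ (dif L L') 0 :=
  (L.analyticAt_weierstrassPExcept 0).sub (L'.analyticAt_weierstrassPExcept 0)

theorem exc_eq (L : PeriodPair) (z : ℂ) : ℘[L] z = L.weierstrassPExcept 0 z + 1 / z ^ 2 := by
  have h := L.weierstrassPExcept_add 0 z
  rw [← h]
  simp

theorem exc_eq' (L : PeriodPair) (z : ℂ) : ℘'[L] z = L.derivWeierstrassPExcept 0 z - 2 / z ^ 3 := by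
  have h := L.derivWeierstrassPExcept_sub 0 z
  rw [← h]
  simp

theorem dif_eq (z : ℂ) : dif L L' z = ℘[L] z - ℘[L'] z := by
  unfold dif
  rw [exc_eq L, exc_eq L']
  ring

theorem dif_deriv : ∀ᶠ z in 𝓝[≠] (0 : ℂ), deriv (dif L L') z = ℘'[L] z - ℘'[L'] z := by
  have h1 := L.compl_lattice_sdiff_singleton_mem_nhds 0
  have h1' := L'.compl_lattice_sdiff_singleton_mem_nhds 0
  filter_upwards [mem_nhdsWithin_of_mem_nhds h1, mem_nhdsWithin_of_mem_nhds h1'] with z hz hz'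
  have e1 := L.eqOn_deriv_weierstrassPExcept_derivWeierstrassPExcept 0 hz
  have e2 := L'.eqOn_deriv_weierstrassPExcept_derivWeierstrassPExcept 0 hz'
  have d1 : DifferentiableAt ℂ (L.weierstrassPExcept 0) z :=
    (L.differentiableOn_weierstrassPExcept 0).differentiableAt
      (L.isOpen_compl_lattice_sdiff.mem_nhds hz)
  have d2 : DifferentiableAt ℂ (L'.weierstrassPExcept 0) z :=
    (L'.differentiableOn_weierstrassPExcept 0).differentiableAt
      (L'.isOpen_compl_lattice_sdiff.mem_nhds hz')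
  have e3 : deriv (dif L L') z = deriv (L.weierstrassPExcept 0) z - deriv (L'.weierstrassPExcept 0) z := deriv_sub d1 d2
  rw [e3, e1, e2, exc_eq' L, exc_eq' L']
  ring

theorem tend_p (L : PeriodPair) : Tendsto (fun z => z ^ 2 * ℘[L] z) (𝓝[≠] 0) (𝓝 1) := by
  have h1 : Tendsto (fun z : ℂ => z ^ 2 * L.weierstrassPExcept 0 z + 1) (𝓝[≠] 0) (𝓝 1) := by
    have h2 : ContinuousAt (fun z : ℂ => z ^ 2 * L.weierstrassPExcept 0 z + 1) 0 := by
      have := (L.analyticAt_weierstrassPExcept 0).continuousAt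
      fun_prop
    have h3 := h2.tendsto
    simp only [PeriodPair.weierstrassPExcept_zero, mul_zero, zero_add] at h3
    exact h3.mono_left nhdsWithin_le_nhds
  refine h1.congr' ?_
  filter_upwards [self_mem_nhdsWithin] with z hz
  have hz0 : z ≠ 0 := hz
  rw [exc_eq L, mul_add]
  field_simp

theorem tend_p' (L : PeriodPair) : Tendsto (fun z => z ^ 3 * ℘'[L] z) (𝓝[≠] 0) (𝓝 (-2)) := by
  have h1 : Tendsto (fun z : ℂ => z ^ 3 * L.derivWeierstrassPExcept 0 z - 2) (𝓝[≠] 0) (𝓝 (-2)) := by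
    have h2 : ContinuousAt (fun z : ℂ => z ^ 3 * L.derivWeierstrassPExcept 0 z - 2) 0 := by
      have := (L.analyticAt_derivWeierstrassPExcept 0).continuousAt
      fun_prop
    have h3 := h2.tendsto
    rw [zero_pow three_ne_zero, zero_mul, zero_sub] at h3
    exact h3.mono_left nhdsWithin_le_nhds
  refine h1.congr' ?_
  filter_upwards [self_mem_nhdsWithin] with z hz
  have hz0 : z ≠ 0 := hz
  rw [exc_eq' L, mul_sub]
  field_simp

/-- **Near zero.** -/
theorem eq_near (h2 : L.g₂ = L'.g₂) (h3 : L.g₃ = L'.g₃) :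
    ∀ᶠ z in 𝓝 (0 : ℂ), dif L L' z = 0 := by
  by_contra hne
  have hw := dif_analytic (L := L) (L' := L')
  obtain ⟨n, v, hv, hv0, hwv⟩ := hw.exists_eventuallyEq_pow_smul_nonzero_iff.2 hne
  -- the derivative
  have hd : ∀ᶠ z in 𝓝 (0 : ℂ), z * deriv (dif L L') z = z ^ n * (n * v z + z * deriv v z) := by
    have e1 : ∀ᶠ y in 𝓝 (0 : ℂ), dif L L' =ᶠ[𝓝 y] fun z => (z - 0) ^ n • v z :=
      hwv.eventually_nhds
    filter_upwards [e1, hv.eventually_analyticAt] with z hz hvz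
    rw [hz.deriv_eq]
    simp only [sub_zero, smul_eq_mul]
    have e2 : deriv (fun z => z ^ n * v z) z = n * z ^ (n - 1) * v z + z ^ n * deriv v z := by
      rw [deriv_fun_mul (by fun_prop) hvz.differentiableAt, deriv_pow_field]
    rw [e2]
    rcases Nat.eq_zero_or_pos n with rfl | hn
    · simp
    · obtain ⟨m, rfl⟩ := Nat.exists_eq_add_of_lt hn
      simp only [zero_add, Nat.add_sub_cancel, pow_succ]
      ring
  have hid : ∀ᶠ z in 𝓝[≠] (0 : ℂ),
      (z ^ 3 * ℘'[L] z + z ^ 3 * ℘'[L'] z) * (n * v z + z * deriv v z) =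
      (4 * ((z ^ 2 * ℘[L] z) ^ 2 + (z ^ 2 * ℘[L] z) * (z ^ 2 * ℘[L'] z) + (z ^ 2 * ℘[L'] z) ^ 2) -
        L.g₂ * z ^ 4) * v z := by
    filter_upwards [ev_notMem L 0, ev_notMem L' 0, self_mem_nhdsWithin, dif_deriv (L := L) (L' := L'),
      mem_nhdsWithin_of_mem_nhds hd, mem_nhdsWithin_of_mem_nhds hwv] with z a1 a2 a3 a4 a5 a6
    have hz0 : z ≠ 0 := a3
    have b1 := L.derivWeierstrassP_sq z a1
    have b2 := L'.derivWeierstrassP_sq z a2
    rw [← h2, ← h3] at b2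
    rw [dif_eq, sub_zero, smul_eq_mul] at a6
    rw [a4] at a5
    have hzn : z ^ n ≠ 0 := pow_ne_zero _ hz0
    apply mul_left_cancel₀ hzn
    have c1 : z ^ n * ((z ^ 3 * ℘'[L] z + z ^ 3 * ℘'[L'] z) * (n * v z + z * deriv v z)) =
        z ^ 4 * ((℘'[L] z) ^ 2 - (℘'[L'] z) ^ 2) := by
      rw [mul_left_comm, ← a5]
      ring
    rw [c1, b1, b2]
    have c2 : z ^ n * ((4 * ((z ^ 2 * ℘[L] z) ^ 2 + (z ^ 2 * ℘[L] z) * (z ^ 2 * ℘[L'] z) +
        (z ^ 2 * ℘[L'] z) ^ 2) - L.g₂ * z ^ 4) * v z) =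
        (4 * ((z ^ 2 * ℘[L] z) ^ 2 + (z ^ 2 * ℘[L] z) * (z ^ 2 * ℘[L'] z) +
        (z ^ 2 * ℘[L'] z) ^ 2) - L.g₂ * z ^ 4) * (℘[L] z - ℘[L'] z) := by
      rw [a6]
      ring
    rw [c2]
    ring
  have hvc : Tendsto v (𝓝[≠] 0) (𝓝 (v 0)) := hv.continuousAt.tendsto.mono_left nhdsWithin_le_nhds
  have hvd : Tendsto (deriv v) (𝓝[≠] 0) (𝓝 (deriv v 0)) :=
    hv.deriv.continuousAt.tendsto.mono_left nhdsWithin_le_nhds
  have hz : Tendsto (fun z : ℂ => z) (𝓝[≠] 0) (𝓝 0) := tendsto_id.mono_left nhdsWithin_le_nhds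
  have l1 := ((tend_p' L).add (tend_p' L')).mul ((tendsto_const_nhds (x := (n : ℂ))).mul hvc |>.add
    (hz.mul hvd))
  have l2 := ((((tend_p L).pow 2).add ((tend_p L).mul (tend_p L'))).add ((tend_p L').pow 2)
    |>.const_mul 4 |>.sub ((hz.pow 4).const_mul L.g₂)).mul hvc
  have l3 := tendsto_nhds_unique (l1.congr' hid) l2
  have l4 : (n + 3 : ℂ) * v 0 = 0 := by
    linear_combination (-1 / 4) * l3
  rcases mul_eq_zero.1 l4 with h | h
  · have : ((n + 3 : ℕ) : ℂ) = 0 := by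
      push_cast
      exact h
    exact absurd (Nat.cast_eq_zero.1 this) (by omega)
  · exact hv0 h

theorem isPreconn (L L' : PeriodPair) :
    IsPreconnected ((L.lattice : Set ℂ) ∪ (L'.lattice : Set ℂ))ᶜ := by
  have hc : ∀ L : PeriodPair, (L.lattice : Set ℂ).Countable := by
    intro L
    have h1 : Countable L.lattice := L.latticeEquivProd.toEquiv.countable_iff.2 inferInstance
    exact Set.countable_coe_iff.1 h1
  have h1 : 1 < Module.rank ℝ ℂ := by
    rw [Complex.rank_real_complex]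
    exact Nat.one_lt_ofNat
  exact ((((hc L).union (hc L')).isPathConnected_compl_of_one_lt_rank h1).isConnected).isPreconnected

/-- **The functions are equal.** -/
theorem eq_all (h2 : L.g₂ = L'.g₂) (h3 : L.g₃ = L'.g₃) :
    Set.EqOn ℘[L] ℘[L'] ((L.lattice : Set ℂ) ∪ (L'.lattice : Set ℂ))ᶜ := by
  have e1 : ∀ᶠ z in 𝓝[≠] (0 : ℂ), ℘[L] z = ℘[L'] z := by
    filter_upwards [mem_nhdsWithin_of_mem_nhds (eq_near h2 h3)] with z hz
    rwa [dif_eq, sub_eq_zero] at hz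
  have e2 : ∀ᶠ y in 𝓝[≠] (0 : ℂ), ∀ᶠ z in 𝓝[≠] y, ℘[L] z = ℘[L'] z := by
    filter_upwards [eventually_eventually_nhdsWithin.2 e1, self_mem_nhdsWithin] with y hy hy0
    have h : 𝓝[≠] y ≤ 𝓝[≠] (0 : ℂ) ⊔ 𝓝 y := le_sup_of_le_right nhdsWithin_le_nhds
    have h4 : 𝓝[{0}ᶜ] y = 𝓝 y := nhdsWithin_eq_nhds.2 (isOpen_compl_singleton.mem_nhds hy0)
    rw [h4] at hy
    exact hy.filter_mono nhdsWithin_le_nhds
  obtain ⟨y, hy1, hy2, hy3⟩ := (e2.and ((ev_notMem L 0).and (ev_notMem L' 0))).exists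
  have ha : AnalyticOnNhd ℂ ℘[L] ((L.lattice : Set ℂ) ∪ (L'.lattice : Set ℂ))ᶜ :=
    L.analyticOnNhd_weierstrassP.mono (Set.compl_subset_compl.2 Set.subset_union_left)
  have hb : AnalyticOnNhd ℂ ℘[L'] ((L.lattice : Set ℂ) ∪ (L'.lattice : Set ℂ))ᶜ :=
    L'.analyticOnNhd_weierstrassP.mono (Set.compl_subset_compl.2 Set.subset_union_right)
  refine ha.eqOn_of_preconnected_of_frequently_eq hb (isPreconn L L') (z₀ := y) ?_ hy1.frequently
  rintro (h | h)
  · exact hy2 h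
  · exact hy3 h

theorem lattice_le (h2 : L.g₂ = L'.g₂) (h3 : L.g₃ = L'.g₃) {l : ℂ} (hl : l ∈ L.lattice) :
    l ∈ L'.lattice := by
  by_contra hl'
  have h1 : ℘[L] =ᶠ[𝓝[≠] l] ℘[L'] := by
    filter_upwards [ev_notMem L l, ev_notMem L' l] with z hz hz'
    refine eq_all h2 h3 ?_
    rintro (h | h)
    · exact hz h
    · exact hz' h
  have h4 := L.order_weierstrassP l hl
  rw [meromorphicOrderAt_congr h1] at h4
  have h5 := (L'.analyticOnNhd_weierstrassP l hl').meromorphicOrderAt_nonneg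
  rw [h4] at h5
  exact absurd h5 (by decide)

/-- **A lattice is determined by its invariants.** -/
theorem lattice_eq (h2 : L.g₂ = L'.g₂) (h3 : L.g₃ = L'.g₃) : L.lattice = L'.lattice :=
  le_antisymm (fun _ h => lattice_le h2 h3 h) (fun _ h => lattice_le h2.symm h3.symm h)

end Pool.Agent.H453.OM
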