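import Pool.Graph.R_pool_sql_team_seeded_3997aac3.Q92.LV.RegE
import Pool.Graph.R_pool_sql_team_seeded_3997aac3.Q92.LV.Law
import Pool.Agent.H453.BS.Rk
import Pool.Agent.H453.OM.Uniq

/-! Canonical heights and changes of variables; the regulator over a quadratic extension. -/

set_option autoImplicit false
set_option linter.unusedSectionVars false

namespace Pool.Agent.H453.OM

open WeierstrassCurve NumberField Height
open Pool.Agent.Y700 (VR)
open Pool.Agent.Q92.LV (IsCan IsRegE pr pr_polar pr_map exists_can gram_ne Sim reg reg_spec)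
open Pool.Agent.Q5.BR (rk)
open scoped Classical

section
variable {F : Type} [Field F] [NumberField F]

/-- the height under a linear map -/
theorem height_lin (A : Fin 2 × Fin 2 → F) : ∃ C : ℝ, ∀ x : Fin 2 → F,
    logHeight (fun j ↦ ∑ i, A (j, i) * x i) ≤ C + logHeight x :=
  ⟨_, fun x => logHeight_linearMap_apply_le A x⟩

/-- **Canonical heights and changes of variables.** -/
theorem can_vr {W W' : WeierstrassCurve F} {u r s t : F} (h : VR W W' u r s t) (hD : W'.Δ ≠ 0)
    {q : W.toAffine.Point → ℝ} (hq : IsCan W q) : IsCan W' (fun P => q (h.equiv hD P)) := by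
  obtain ⟨hpar, C, hC⟩ := hq
  refine ⟨fun P Q => ?_, ?_⟩
  · have h0 := hpar (h.equiv hD P) (h.equiv hD Q)
    rw [← map_add, ← map_sub] at h0
    exact h0
  have hu := h.u0
  let A : Fin 2 × Fin 2 → F := fun p => !![u ^ 2, r; 0, 1] p.1 p.2
  let A' : Fin 2 × Fin 2 → F := fun p => !![(u ^ 2)⁻¹, -(r * (u ^ 2)⁻¹); 0, 1] p.1 p.2
  obtain ⟨C₁, h1⟩ := height_lin A
  obtain ⟨C₂, h2⟩ := height_lin A'
  have hAA : ∀ x : Fin 2 → F, (fun j ↦ ∑ i, A' (j, i) * (fun j ↦ ∑ i, A (j, i) * x i) i) = x := by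
    intro x
    funext j
    fin_cases j
    · simp [A, A', Fin.sum_univ_two]
      field_simp
      ring
    · simp [A, A', Fin.sum_univ_two]
  have hA : ∀ P : W'.toAffine.Point,
      logHeight (h.equiv hD P).xRep = logHeight (fun j ↦ ∑ i, A (j, i) * P.xRep i) := by
    intro P
    match P with
    | 0 =>
      have e1 : (h.equiv hD (0 : W'.toAffine.Point)) = 0 := map_zero _
      have e2 : (fun j ↦ ∑ i, A (j, i) * (0 : W'.toAffine.Point).xRep i) =
          (u ^ 2) • (0 : W.toAffine.Point).xRep := by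
        funext j
        fin_cases j <;> simp [A, Fin.sum_univ_two]
      rw [e1, e2, logHeight_smul_eq_logHeight _ (pow_ne_zero 2 hu)]
    | .some x y hxy =>
      have e1 : h.equiv hD (.some x y hxy) = .some (u ^ 2 * x + r) (u ^ 3 * y + u ^ 2 * s * x + t)
        (Pool.Agent.Y700.nonsing (h.delta_ne hD) (h.eqn.2 hxy.1)) := rfl
      rw [e1, Affine.Point.xRep_some, Affine.Point.xRep_some]
      congr 1
      funext j
      fin_cases j <;> simp [A, Fin.sum_univ_two]
  refine ⟨C + |C₁| + |C₂|, fun P => ?_⟩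
  have h3 := hC (h.equiv hD P)
  have h4 := h1 P.xRep
  have h5 := h2 (fun j ↦ ∑ i, A (j, i) * P.xRep i)
  rw [hAA] at h5
  rw [← hA] at h4 h5
  rw [abs_le] at h3 ⊢
  have h6 := le_abs_self C₁
  have h7 := le_abs_self C₂
  have h8 := abs_nonneg C₁
  have h9 := abs_nonneg C₂
  constructor <;> linarith [h3.1, h3.2]

/-- the rank under a change of variables -/
theorem rk_vr {W W' : WeierstrassCurve F} {u r s t : F} (h : VR W W' u r s t) (hD : W'.Δ ≠ 0) :
    rk W' = rk W :=
  (h.equiv hD).toIntLinearEquiv.finrank_eq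

/-- the determinant -/
noncomputable def cdet {κ : Type} [Fintype κ] (L : Matrix κ κ ℝ) : ℝ :=
  @Matrix.det κ (Classical.decEq κ) _ ℝ _ L

theorem cdet_eq {κ : Type} [Fintype κ] (i : DecidableEq κ) (L : Matrix κ κ ℝ) :
    @Matrix.det _ i _ ℝ _ L = cdet L := by
  rw [cdet, Subsingleton.elim i (Classical.decEq κ)]

theorem cdet_smul {κ : Type} [Fintype κ] (c : ℝ) (L : Matrix κ κ ℝ) :
    cdet (c • L) = c ^ Fintype.card κ * cdet L := by
  have i := Classical.decEq κ
  rw [← cdet_eq i, ← cdet_eq i, Matrix.det_smul]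

theorem cdet_vec {κ : Type} [Fintype κ] {L : Matrix κ κ ℝ} (h : cdet L ≠ 0) {v : κ → ℝ}
    (hv : L.mulVec v = 0) : v = 0 := by
  have i := Classical.decEq κ
  rw [← cdet_eq i] at h
  exact Matrix.eq_zero_of_mulVec_eq_zero h hv

/-- regulators of families with any index type -/
theorem regE_of {W : WeierstrassCurve F} {q : W.toAffine.Point → ℝ} (hq : IsCan W q) {κ : Type}
    [Fintype κ] (hκ : Fintype.card κ = rk W) {P : κ → W.toAffine.Point}
    (hP : LinearIndependent ℤ P) :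
    IsRegE W (cdet (Matrix.of fun l m => pr q (P l) (P m) : Matrix κ κ ℝ)) := by
  let e : Fin (rk W) ≃ κ := (Fintype.equivFinOfCardEq hκ).symm
  refine ⟨q, hq, P ∘ e, hP.comp e e.injective, ?_⟩
  have h1 := Matrix.det_submatrix_equiv_self e (Matrix.of fun l m => pr q (P l) (P m) : Matrix κ κ ℝ)
  rw [cdet_eq, cdet_eq] at h1
  rw [cdet_eq]
  exact h1

/-- the regulator under a change of variables -/
theorem regE_vr {W W' : WeierstrassCurve F} {u r s t : F} (h : VR W W' u r s t) (hD : W'.Δ ≠ 0)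
    {c : ℝ} (hc : IsRegE W c) : IsRegE W' c := by
  obtain ⟨q, hq, P, hP, rfl⟩ := hc
  have h1 := can_vr h hD hq
  have h2 : LinearIndependent ℤ fun l => (h.equiv hD).symm (P l) :=
    hP.map' (h.equiv hD).symm.toIntLinearEquiv.toLinearMap
      (LinearMap.ker_eq_bot.2 (h.equiv hD).symm.injective)
  have h3 := regE_of h1 (κ := Fin (rk W)) (by rw [Fintype.card_fin, rk_vr h hD]) h2
  have h4 : ∀ l m, pr (fun P => q (h.equiv hD P)) ((h.equiv hD).symm (P l))
      ((h.equiv hD).symm (P m)) = pr q (P l) (P m) := by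
    intro l m
    unfold pr
    rw [← map_add]
    simp only [AddEquiv.apply_symm_apply]
  simp only [h4] at h3
  rw [cdet_eq]
  exact h3

theorem regE_congr {W W' : WeierstrassCurve F} (h : W = W') {c : ℝ} (hc : IsRegE W c) :
    IsRegE W' c := by
  subst h
  exact hc

/-- two orthogonal families -/
theorem regE_sum {W : WeierstrassCurve F} {q : W.toAffine.Point → ℝ} (hq : IsCan W q) {κ κ' : Type}
    [Fintype κ] [Fintype κ'] {a : κ → W.toAffine.Point} {b : κ' → W.toAffine.Point}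
    (hab : ∀ l m, pr q (a l) (b m) = 0) (hκ : Fintype.card κ + Fintype.card κ' = rk W)
    (ha : cdet (Matrix.of fun l m => pr q (a l) (a m) : Matrix κ κ ℝ) ≠ 0)
    (hb : cdet (Matrix.of fun l m => pr q (b l) (b m) : Matrix κ' κ' ℝ) ≠ 0) :
    IsRegE W (cdet (Matrix.of fun l m => pr q (a l) (a m) : Matrix κ κ ℝ) *
      cdet (Matrix.of fun l m => pr q (b l) (b m) : Matrix κ' κ' ℝ)) := by
  obtain ⟨B, hB1, hB2, hB3⟩ := pr_polar q hq.1
  have hba : ∀ l m, pr q (b l) (a m) = 0 := by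
    intro l m
    rw [hB3, hB2, ← hB3]
    exact hab m l
  obtain ⟨P, hP0⟩ : ∃ P : κ ⊕ κ' → W.toAffine.Point, P = Sum.elim a b := ⟨_, rfl⟩
  have hblock : (Matrix.of fun l m => pr q (P l) (P m) : Matrix (κ ⊕ κ') (κ ⊕ κ') ℝ) =
      Matrix.fromBlocks (Matrix.of fun l m => pr q (a l) (a m)) 0 0
        (Matrix.of fun l m => pr q (b l) (b m)) := by
    rw [hP0]
    ext l m
    rcases l with l | l <;> rcases m with m | m
    · rfl
    · exact hab l m
    · exact hba l m
    · rfl
  have hdet : cdet (Matrix.of fun l m => pr q (P l) (P m) : Matrix (κ ⊕ κ') (κ ⊕ κ') ℝ) =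
      cdet (Matrix.of fun l m => pr q (a l) (a m) : Matrix κ κ ℝ) *
      cdet (Matrix.of fun l m => pr q (b l) (b m) : Matrix κ' κ' ℝ) := by
    rw [hblock]
    have h1 := Matrix.det_fromBlocks_zero₁₂ (Matrix.of fun l m => pr q (a l) (a m) : Matrix κ κ ℝ)
      0 (Matrix.of fun l m => pr q (b l) (b m) : Matrix κ' κ' ℝ)
    rw [cdet_eq, cdet_eq, cdet_eq] at h1
    exact h1
  have hne : cdet (Matrix.of fun l m => pr q (P l) (P m) : Matrix (κ ⊕ κ') (κ ⊕ κ') ℝ) ≠ 0 := by
    rw [hdet]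
    exact mul_ne_zero ha hb
  have hP : LinearIndependent ℤ P := by
    rw [Fintype.linearIndependent_iff]
    intro g hg i
    have h1 : (Matrix.of fun l m => pr q (P l) (P m) : Matrix (κ ⊕ κ') (κ ⊕ κ') ℝ).mulVec
        (fun m => (g m : ℝ)) = 0 := by
      funext l
      have h2 : B (P l) (∑ m, g m • P m) = 0 := by rw [hg, map_zero]
      rw [map_sum] at h2
      change ∑ m, pr q (P l) (P m) * (g m : ℝ) = 0
      have h3 : ∀ m, pr q (P l) (P m) * (g m : ℝ) = 2 * B (P l) (g m • P m) := by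
        intro m
        rw [hB3, map_zsmul, zsmul_eq_mul]
        ring
      simp only [h3]
      rw [← Finset.mul_sum, h2, mul_zero]
    have h4 := cdet_vec hne h1
    have h5 : (g i : ℝ) = 0 := congrFun h4 i
    exact_mod_cast h5
  rw [← hdet]
  exact regE_of hq (by rw [Fintype.card_sum, hκ]) hP

variable {Z : Type} [Field Z] [NumberField Z] [Algebra F Z]

open Pool.Agent.H341R2.EC (twist)
open Pool.Agent.R333.BR
open Pool.Agent.H453.BS (vr_short vr_twist map_twist twist_disc rank_quad)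

/-- **The regulator over a quadratic extension.** -/
theorem reg_quad (E : WeierstrassCurve F) (hE : E.IsElliptic) {d : F} (hd : d ≠ 0) {α : Z}
    (hα : α ^ 2 = algebraMap F Z d) (hαF : ∀ x : F, algebraMap F Z x ≠ α)
    (hgen : ∀ z : Z, ∃ x y : F, z = algebraMap F Z x + algebraMap F Z y * α)
    (hfr : Module.finrank F Z = 2) :
    Sim (reg (E.map (algebraMap F Z))) (reg E * reg (twist E d)) := by
  have hEΔ : E.Δ ≠ 0 := E.isUnit_Δ.ne_zero
  have hfd : FiniteDimensional F Z := by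
    have : IsScalarTower ℚ F Z := inferInstance
    exact FiniteDimensional.right ℚ F Z
  have hq2 : Algebra.IsQuadraticExtension F Z := ⟨hfr⟩
  have hgal : IsGalois F Z := inferInstance
  -- the automorphism
  obtain ⟨σ, hσ⟩ : ∃ σ : Gal(Z/F), σ α = -α := by
    by_contra hcon
    push Not at hcon
    have h1 : ∀ σ : Gal(Z/F), σ α = α := by
      intro σ
      have h2 : (σ α) ^ 2 = α ^ 2 := by
        rw [← map_pow, hα, AlgEquiv.commutes]
      rcases sq_eq_sq_iff_eq_or_eq_neg.1 h2 with h3 | h3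
      · exact h3
      · exact absurd h3 (hcon σ)
    obtain ⟨x, hx⟩ := (IsGalois.mem_bot_iff_fixed α).2 h1
    exact hαF x hx
  set S := twist E 1 with hS
  set T := twist E d with hT
  have hSΔ : S.Δ ≠ 0 := twist_disc hEΔ one_ne_zero
  have hTΔ : T.Δ ≠ 0 := twist_disc hEΔ hd
  have hSZ : (S.map (algebraMap F Z)).Δ ≠ 0 := by
    rw [WeierstrassCurve.map_Δ]
    exact (map_ne_zero _).2 hSΔ
  have hTZ : (T.map (algebraMap F Z)).Δ ≠ 0 := by
    rw [WeierstrassCurve.map_Δ]
    exact (map_ne_zero _).2 hTΔ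
  have hSe : S.IsElliptic := ⟨hSΔ.isUnit⟩
  have hTe : T.IsElliptic := ⟨hTΔ.isUnit⟩
  have hv := vr_twist (Z := Z) E hd hα
  rw [← hS, ← hT] at hv
  -- the maps
  let fp : Pt S F →+ Pt S Z := mp S (Algebra.ofId F Z)
  let θ : Pt T Z ≃+ Pt S Z := hv.equiv hTZ
  let gT : Pt T F →+ Pt T Z := mp T (Algebra.ofId F Z)
  let fm : Pt T F →+ Pt S Z := (θ : Pt T Z →+ Pt S Z).comp gT
  let τ : Pt S Z →+ Pt S Z := mp S (σ : Z →ₐ[F] Z)
  have hofId : ((σ : Z →ₐ[F] Z)).comp (Algebra.ofId F Z) = Algebra.ofId F Z := by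
    ext
  have hτp : ∀ P, τ (fp P) = fp P := by
    intro P
    change mp S (σ : Z →ₐ[F] Z) (mp S (Algebra.ofId F Z) P) = _
    rw [mp_mp, hofId]
  have hθ : ∀ Q, τ (θ Q) = -θ (mp T (σ : Z →ₐ[F] Z) Q) := by
    intro Q
    rcases Q with _ | ⟨x, y, hxy⟩
    · change τ 0 = -(0 : Pt S Z)
      rw [map_zero, neg_zero]
    · obtain ⟨h', h1⟩ := mp_some T (σ : Z →ₐ[F] Z) hxy
      rw [h1]
      have h2 : θ (.some x y hxy) = .some (α⁻¹ ^ 2 * x + 0) (α⁻¹ ^ 3 * y + α⁻¹ ^ 2 * 0 * x + 0)
          (Pool.Agent.Y700.nonsing (hv.delta_ne hTZ) (hv.eqn.2 hxy.1)) := rfl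
      have h3 : θ (.some ((σ : Z →ₐ[F] Z) x) ((σ : Z →ₐ[F] Z) y) h') =
        .some (α⁻¹ ^ 2 * (σ : Z →ₐ[F] Z) x + 0)
          (α⁻¹ ^ 3 * (σ : Z →ₐ[F] Z) y + α⁻¹ ^ 2 * 0 * (σ : Z →ₐ[F] Z) x + 0)
          (Pool.Agent.Y700.nonsing (hv.delta_ne hTZ) (hv.eqn.2 h'.1)) := rfl
      rw [h2, h3]
      obtain ⟨h'', h4⟩ := mp_some S (σ : Z →ₐ[F] Z)
        (Pool.Agent.Y700.nonsing (hv.delta_ne hTZ) (hv.eqn.2 hxy.1))
      change mp S (σ : Z →ₐ[F] Z) _ = _
      rw [h4]
      rw [Affine.Point.neg_some]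
      have e1 : (S.map (algebraMap F Z)).a₁ = 0 := by
        rw [hS]
        simp [twist]
      have e3 : (S.map (algebraMap F Z)).a₃ = 0 := by
        rw [hS]
        simp [twist]
      have hσ' : (σ : Z →ₐ[F] Z) α = -α := hσ
      simp only [Affine.Point.some.injEq, Affine.negY, e1, e3, map_add, map_mul, map_pow,
        map_inv₀, hσ', map_zero]
      constructor
      · rw [inv_neg, neg_sq]
      · ring
  have hτm : ∀ Q, τ (fm Q) = -fm Q := by
    intro Q
    change τ (θ (gT Q)) = -θ (gT Q)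
    rw [hθ]
    congr 2
    change mp T (σ : Z →ₐ[F] Z) (mp T (Algebra.ofId F Z) Q) = mp T (Algebra.ofId F Z) Q
    rw [mp_mp, hofId]
  -- the heights
  obtain ⟨q', hq'⟩ := exists_can (S.map (algebraMap F Z)) hSZ
  have hidS : S.map (algebraMap F F) = S := by
    rw [Algebra.algebraMap_self, WeierstrassCurve.map_id]
  have hidT : T.map (algebraMap F F) = T := by
    rw [Algebra.algebraMap_self, WeierstrassCurve.map_id]
  have hregS : IsRegE (S.map (algebraMap F F)) (reg E) :=
    regE_congr hidS.symm (regE_vr (vr_short E) hSΔ (reg_spec hE))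
  have hregT : IsRegE (T.map (algebraMap F F)) (reg T) := regE_congr hidT.symm (reg_spec hTe)
  obtain ⟨qS, hqS, PS, hPS, hdS⟩ := hregS
  obtain ⟨qT, hqT, PT, hPT, hdT⟩ := hregT
  have hratio : (((Module.finrank ℚ Z : ℚ) / (Module.finrank ℚ F : ℚ) : ℚ) : ℝ) = 2 := by
    have h1 := Module.finrank_mul_finrank ℚ F Z
    rw [hfr] at h1
    have h2 : (Module.finrank ℚ F : ℚ) ≠ 0 := by
      exact_mod_cast (Module.finrank_pos (R := ℚ) (M := F)).ne'
    rw [← h1]
    push_cast
    have h3 : (Module.finrank ℚ F : ℝ) ≠ 0 := by exact_mod_cast h2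
    field_simp
  have hp2 : ∀ P, q' (fp P) = 2 * qS P := by
    intro P
    have h1 := IsCan.map (K := F) (F := F) (N := Z) (E := S) (Algebra.ofId F Z) hqS hq' P
    rw [hratio] at h1
    exact h1
  have hqθ : IsCan (T.map (algebraMap F Z)) (fun Q => q' (θ Q)) := can_vr hv hTZ hq'
  have hm2 : ∀ Q, q' (fm Q) = 2 * qT Q := by
    intro Q
    have h1 := IsCan.map (K := F) (F := F) (N := Z) (E := T) (Algebra.ofId F Z) hqT hqθ Q
    rw [hratio] at h1
    exact h1
  have hτ1 : ∀ P, q' (τ P) = 1 * q' P := by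
    intro P
    have h1 := IsCan.map (K := F) (F := Z) (N := Z) (E := S) (σ : Z →ₐ[F] Z) hq' hq' P
    have h3 : (Module.finrank ℚ Z : ℚ) ≠ 0 := by
      exact_mod_cast (Module.finrank_pos (R := ℚ) (M := Z)).ne'
    rw [div_self h3, Rat.cast_one] at h1
    exact h1
  have horth : ∀ P Q, pr q' (fp P) (fm Q) = 0 := by
    intro P Q
    obtain ⟨B, hB1, hB2, hB3⟩ := pr_polar q' hq'.1
    have h1 := pr_map (f := τ) hτ1 (fp P) (fm Q)
    rw [hτp, hτm, hB3, hB3, map_neg] at h1
    rw [hB3]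
    linarith
  have hdetp : cdet (Matrix.of fun l m => pr q' (fp (PS l)) (fp (PS m)) :
      Matrix (Fin (rk (S.map (algebraMap F F)))) (Fin (rk (S.map (algebraMap F F)))) ℝ) =
      2 ^ (rk (S.map (algebraMap F F))) * reg E := by
    have h1 : (Matrix.of fun l m => pr q' (fp (PS l)) (fp (PS m)) :
      Matrix (Fin (rk (S.map (algebraMap F F)))) (Fin (rk (S.map (algebraMap F F)))) ℝ) =
      (2 : ℝ) • (Matrix.of fun l m => pr qS (PS l) (PS m)) := by
      ext l m
      rw [Matrix.smul_apply, Matrix.of_apply, Matrix.of_apply, smul_eq_mul]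
      exact pr_map hp2 _ _
    rw [h1, cdet_smul, Fintype.card_fin, ← hdS, cdet_eq]
  have hdetm : cdet (Matrix.of fun l m => pr q' (fm (PT l)) (fm (PT m)) :
      Matrix (Fin (rk (T.map (algebraMap F F)))) (Fin (rk (T.map (algebraMap F F)))) ℝ) =
      2 ^ (rk (T.map (algebraMap F F))) * reg T := by
    have h1 : (Matrix.of fun l m => pr q' (fm (PT l)) (fm (PT m)) :
      Matrix (Fin (rk (T.map (algebraMap F F)))) (Fin (rk (T.map (algebraMap F F)))) ℝ) =
      (2 : ℝ) • (Matrix.of fun l m => pr qT (PT l) (PT m)) := by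
      ext l m
      rw [Matrix.smul_apply, Matrix.of_apply, Matrix.of_apply, smul_eq_mul]
      exact pr_map hm2 _ _
    rw [h1, cdet_smul, Fintype.card_fin, ← hdT, cdet_eq]
  have hneE : reg E ≠ 0 := (reg_spec hE).ne
  have hneT : reg T ≠ 0 := (reg_spec hTe).ne
  -- the ranks
  have hrk : rk (S.map (algebraMap F F)) + rk (T.map (algebraMap F F)) =
      rk (S.map (algebraMap F Z)) := by
    have h0 := rank_quad (F := F) (Z := Z) E hEΔ hd hα hαF hgen
    have h1 : rk (S.map (algebraMap F Z)) = rk (E.map (algebraMap F Z)) := by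
      have h2 := vr_short (E.map (algebraMap F Z))
      have h3 : twist (E.map (algebraMap F Z)) 1 = S.map (algebraMap F Z) := by
        rw [hS, map_twist, map_one]
      rw [h3] at h2
      exact rk_vr h2 hSZ
    rw [h1, hidS, hidT]
    have fS := Pool.Agent.Q92.LV.points_finite hSΔ
    have fT := Pool.Agent.Q92.LV.points_finite hTΔ
    unfold rk
    unfold Module.finrank
    rw [h0, Cardinal.toNat_add (Module.rank_lt_aleph0 ℤ _) (Module.rank_lt_aleph0 ℤ _)]
  have hmain := regE_sum hq' (a := fun l => fp (PS l)) (b := fun l => fm (PT l))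
    (fun l m => horth _ _) (by rw [Fintype.card_fin, Fintype.card_fin, hrk])
    (by rw [hdetp]; exact mul_ne_zero (by positivity) hneE)
    (by rw [hdetm]; exact mul_ne_zero (by positivity) hneT)
  rw [hdetp, hdetm] at hmain
  have hregZ : IsRegE (S.map (algebraMap F Z)) (reg (E.map (algebraMap F Z))) := by
    have h2 := vr_short (E.map (algebraMap F Z))
    have h3 : twist (E.map (algebraMap F Z)) 1 = S.map (algebraMap F Z) := by
      rw [hS, map_twist, map_one]
    rw [h3] at h2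
    exact regE_vr h2 hSZ (reg_spec inferInstance)
  obtain ⟨r, hr, h5⟩ := IsRegE.quot (W := S.map (algebraMap F Z)) inferInstance hregZ hmain
  refine ⟨r * 2 ^ (rk (S.map (algebraMap F F))) * 2 ^ (rk (T.map (algebraMap F F))), by positivity, ?_⟩
  rw [h5]
  push_cast
  ring

end

end Pool.Agent.H453.OM
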