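import Mathlib

/-! The discriminant of a quadratic extension, modulo squares. -/

set_option autoImplicit false

namespace Pool.Agent.H453.OM

open NumberField Module Matrix

section
variable {F Z : Type} [Field F] [Field Z] [Algebra F Z]

/-- the basis `1, α` -/
theorem exists_basis {α : Z} (hα : ∀ x : F, algebraMap F Z x ≠ α)
    (hgen : ∀ z : Z, ∃ x y : F, z = algebraMap F Z x + algebraMap F Z y * α) :
    ∃ b : Basis (Fin 2) F Z, b 0 = 1 ∧ b 1 = α := by
  have hli : LinearIndependent F ![(1 : Z), α] := by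
    rw [LinearIndependent.pair_iff]
    intro s t h
    rw [Algebra.smul_def, Algebra.smul_def, mul_one] at h
    have ht : t = 0 := by
      by_contra ht
      apply hα (-(s / t))
      have h1 : algebraMap F Z t ≠ 0 := by
        rw [Ne, FaithfulSMul.algebraMap_eq_zero_iff]
        exact ht
      rw [map_neg, map_div₀]
      field_simp
      linear_combination -h
    subst ht
    rw [map_zero, zero_mul, add_zero, FaithfulSMul.algebraMap_eq_zero_iff] at h
    exact ⟨h, rfl⟩
  have hsp : ⊤ ≤ Submodule.span F (Set.range ![(1 : Z), α]) := by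
    rintro z -
    obtain ⟨x, y, rfl⟩ := hgen z
    refine Submodule.add_mem _ ?_ ?_
    · have h1 : algebraMap F Z x = x • (![(1 : Z), α] 0) := by
        rw [Algebra.smul_def]
        simp
      rw [h1]
      exact Submodule.smul_mem _ _ (Submodule.subset_span ⟨0, rfl⟩)
    · have h1 : algebraMap F Z y * α = y • (![(1 : Z), α] 1) := by
        rw [Algebra.smul_def]
        simp
      rw [h1]
      exact Submodule.smul_mem _ _ (Submodule.subset_span ⟨1, rfl⟩)
  refine ⟨Basis.mk hli hsp, ?_, ?_⟩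
  · rw [Basis.mk_apply]
    rfl
  · rw [Basis.mk_apply]
    rfl

theorem trace_zero {d : F} {α : Z} (hd : α ^ 2 = algebraMap F Z d)
    (hα : ∀ x : F, algebraMap F Z x ≠ α)
    (hgen : ∀ z : Z, ∃ x y : F, z = algebraMap F Z x + algebraMap F Z y * α) :
    Algebra.trace F Z α = 0 := by
  obtain ⟨b, h0, h1⟩ := exists_basis hα hgen
  rw [Algebra.trace_eq_matrix_trace b, Matrix.trace_fin_two, Algebra.leftMulMatrix_eq_repr_mul,
    Algebra.leftMulMatrix_eq_repr_mul]
  have e0 : α * b 0 = b 1 := by rw [h0, h1, mul_one]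
  have e1 : α * b 1 = d • b 0 := by rw [h0, h1, Algebra.smul_def, mul_one, ← hd, sq]
  rw [e0, e1, map_smul]
  simp

theorem finrank_two {α : Z} (hα : ∀ x : F, algebraMap F Z x ≠ α)
    (hgen : ∀ z : Z, ∃ x y : F, z = algebraMap F Z x + algebraMap F Z y * α) :
    Module.finrank F Z = 2 := by
  obtain ⟨b, -, -⟩ := exists_basis hα hgen
  rw [Module.finrank_eq_card_basis b, Fintype.card_fin]

end

section
variable {F Z : Type} [Field F] [NumberField F] [Field Z] [NumberField Z] [Algebra F Z]

/-- **The discriminant of a quadratic extension.** -/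
theorem discr_quad {d : F} (hd0 : d ≠ 0) {α : Z} (hd : α ^ 2 = algebraMap F Z d)
    (hα : ∀ x : F, algebraMap F Z x ≠ α)
    (hgen : ∀ z : Z, ∃ x y : F, z = algebraMap F Z x + algebraMap F Z y * α) :
    ∃ q : ℚ, q ≠ 0 ∧ (discr Z : ℚ) = q ^ 2 * Algebra.norm ℚ d := by
  classical
  have hfd : FiniteDimensional F Z := by
    have : IsScalarTower ℚ F Z := inferInstance
    exact FiniteDimensional.right ℚ F Z
  have htr := trace_zero hd hα hgen
  have hfr := finrank_two hα hgen
  let b := integralBasis F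
  let b' := integralBasis Z
  let ι := Free.ChooseBasisIndex ℤ (𝓞 F)
  let κ := Free.ChooseBasisIndex ℤ (𝓞 Z)
  let e : ι ⊕ ι → Z := Sum.elim (fun i => algebraMap F Z (b i)) (fun i => algebraMap F Z (b i) * α)
  set T := Algebra.traceMatrix ℚ b with hT
  set M := Algebra.leftMulMatrix b d with hM
  have hTe : ∀ i j, T i j = Algebra.trace ℚ F (b i * b j) := fun i j => rfl
  have hTM : ∀ i j, (T * M) i j = Algebra.trace ℚ F (b i * (b j * d)) := by
    intro i j
    have h1 : d * b j = ∑ l, M l j • b l := by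
      conv_lhs => rw [← b.sum_repr (d * b j)]
      refine Finset.sum_congr rfl fun l _ => ?_
      rw [hM, Algebra.leftMulMatrix_eq_repr_mul]
    rw [Matrix.mul_apply, mul_comm (b j) d, h1, Finset.mul_sum, map_sum]
    refine Finset.sum_congr rfl fun l _ => ?_
    rw [mul_smul_comm, map_smul, hTe, smul_eq_mul, mul_comm]
  have htt : ∀ x : Z, Algebra.trace ℚ Z x = Algebra.trace ℚ F (Algebra.trace F Z x) := fun x =>
    (Algebra.trace_trace (R := ℚ) (S := F) (T := Z) x).symm
  have h2 : ∀ x : F, Algebra.trace ℚ Z (algebraMap F Z x) = 2 * Algebra.trace ℚ F x := by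
    intro x
    rw [htt, Algebra.trace_algebraMap, hfr, map_nsmul, nsmul_eq_mul, Nat.cast_ofNat]
  have h3 : ∀ x : F, Algebra.trace ℚ Z (algebraMap F Z x * α) = 0 := by
    intro x
    rw [htt, ← Algebra.smul_def, map_smul, htr, smul_zero, map_zero]
  have hblk : Algebra.traceMatrix ℚ e = Matrix.fromBlocks ((2 : ℚ) • T) 0 0 ((2 : ℚ) • (T * M)) := by
    ext (i | i) (j | j)
    · rw [Matrix.fromBlocks_apply₁₁, Matrix.smul_apply, hTe, smul_eq_mul]
      change Algebra.trace ℚ Z (algebraMap F Z (b i) * algebraMap F Z (b j)) = _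
      rw [← map_mul, h2]
    · rw [Matrix.fromBlocks_apply₁₂, Matrix.zero_apply]
      change Algebra.trace ℚ Z (algebraMap F Z (b i) * (algebraMap F Z (b j) * α)) = _
      rw [← mul_assoc, ← map_mul, h3]
    · rw [Matrix.fromBlocks_apply₂₁, Matrix.zero_apply]
      change Algebra.trace ℚ Z ((algebraMap F Z (b i) * α) * algebraMap F Z (b j)) = _
      rw [mul_right_comm, ← map_mul, h3]
    · rw [Matrix.fromBlocks_apply₂₂, Matrix.smul_apply, hTM, smul_eq_mul]
      change Algebra.trace ℚ Z ((algebraMap F Z (b i) * α) * (algebraMap F Z (b j) * α)) = _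
      have e1 : (algebraMap F Z (b i) * α) * (algebraMap F Z (b j) * α) =
          algebraMap F Z (b i * (b j * d)) := by
        rw [map_mul, map_mul, ← hd]
        ring
      rw [e1, h2]
  have hdet : Algebra.discr ℚ e = ((2 : ℚ) ^ Fintype.card ι * (discr F : ℚ)) ^ 2 *
      Algebra.norm ℚ d := by
    rw [Algebra.discr_def, hblk, Matrix.det_fromBlocks_zero₂₁, Matrix.det_smul, Matrix.det_smul,
      Matrix.det_mul, Algebra.norm_eq_matrix_det b d, coe_discr, Algebra.discr_def]
    ring
  have hcard : Fintype.card κ = Fintype.card (ι ⊕ ι) := by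
    have e1 : Fintype.card κ = Module.finrank ℚ Z := (Module.finrank_eq_card_basis b').symm
    have e2 : Fintype.card ι = Module.finrank ℚ F := (Module.finrank_eq_card_basis b).symm
    rw [Fintype.card_sum, e1, e2, ← Module.finrank_mul_finrank ℚ F Z, hfr]
    ring
  let eqv : κ ≃ ι ⊕ ι := Fintype.equivOfCardEq hcard
  have hP := Algebra.discr_of_matrix_vecMul (b' : κ → Z) (b'.toMatrix (e ∘ eqv))
  rw [Module.Basis.toMatrix_map_vecMul] at hP
  have hP2 : Algebra.discr ℚ (e ∘ eqv) = Algebra.discr ℚ e := by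
    rw [Algebra.discr_def, Algebra.discr_def]
    have h4 : Algebra.traceMatrix ℚ (e ∘ eqv) = (Algebra.traceMatrix ℚ e).submatrix eqv eqv := rfl
    rw [h4, Matrix.det_submatrix_equiv_self]
  have hb' : Algebra.discr ℚ (b' : κ → Z) = (discr Z : ℚ) := (coe_discr Z).symm
  rw [hP2, hdet, hb'] at hP
  have hn : Algebra.norm ℚ d ≠ 0 := Algebra.norm_ne_zero_iff.2 hd0
  have hdF : (discr F : ℚ) ≠ 0 := by exact_mod_cast discr_ne_zero F
  have hx : ((2 : ℚ) ^ Fintype.card ι * (discr F : ℚ)) ≠ 0 :=
    mul_ne_zero (pow_ne_zero _ two_ne_zero) hdF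
  have hPd : (b'.toMatrix (e ∘ eqv)).det ≠ 0 := by
    intro h0
    rw [h0, zero_pow two_ne_zero, zero_mul] at hP
    exact mul_ne_zero (pow_ne_zero 2 hx) hn hP
  refine ⟨((2 : ℚ) ^ Fintype.card ι * (discr F : ℚ)) / (b'.toMatrix (e ∘ eqv)).det,
    div_ne_zero hx hPd, ?_⟩
  rw [div_pow]
  field_simp
  linear_combination -hP

end

end Pool.Agent.H453.OM
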