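import Pool.Agent.H453.OM.Perm

/-! Fields over which the incomplete `L`-series and the periods of all elliptic curves are products of
those of quadratic twists over fields of smaller degree. -/

set_option autoImplicit false

namespace Pool.Agent.H453.OM

open NumberField IsDedekindDomain Complex Polynomial
open Pool.Agent.H341R2.EC
open Pool.Agent.R433.MD
open Pool.Agent.H453.EN
open Pool.Agent.Q92.LV (Periods Sim om_ne up_up reg reg_spec IsRegE)
open Pool.Agent.H453.MC (twist_elliptic isMinAt_one' exists_quad ext_restrict)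
open Pool.Agent.H453.BS (rank_twist_one rank_quad vr_short twist_disc)
open scoped Classical

theorem ex_cast {K : Type} [Field K] [NumberField K] {E E' : WeierstrassCurve K} (h : E = E')
    (p : Periods E) : ∃ p' : Periods E', p'.Om = p.Om := by
  subst h
  exact ⟨p, rfl⟩

/-- the twist with `1` -/
theorem om_one {K : Type} [Field K] [NumberField K] {E : WeierstrassCurve K} (p : Periods E)
    {d : K} (hd : d = 1) (q : Periods (twist E d)) : Sim q.Om p.Om := by
  subst hd
  have hpair : ∀ ν : K →+* ℂ, (q.pair ν).lattice =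
      (scl (p.pair ν) (6 : ℂ)⁻¹ (by norm_num)).lattice := by
    intro ν
    apply lattice_eq
    · rw [scl_g₂, p.g₂_eq, q.g₂_eq, twist_c₄, inv_pow, div_inv_eq_mul, one_pow, mul_one, map_mul,
        map_ofNat]
      ring
    · rw [scl_g₃, p.g₃_eq, q.g₃_eq, twist_c₆, inv_pow, div_inv_eq_mul, one_pow, mul_one, map_mul,
        map_ofNat]
      ring
  refine (Sim.refl _).mul (Sim.prod _ fun v _ => ?_)
  unfold Periods.at Pool.Agent.Q92.LV.atF
  by_cases hv : v.IsReal
  · rw [if_pos hv, if_pos hv]
    have hr := InfinitePlace.isReal_iff.1 hv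
    have h1 : ((q.re v.embedding : ℝ) : ℂ) ∈
        (scl (p.pair v.embedding) (6 : ℂ)⁻¹ (by norm_num)).lattice := by
      rw [← hpair]
      exact q.re_mem _ hr
    have h2 : ((6 * q.re v.embedding : ℝ) : ℂ) ∈ (p.pair v.embedding).lattice := by
      refine (mem_scl (hc := (by norm_num : (6 : ℂ)⁻¹ ≠ 0))).1 ?_
      push_cast
      rw [inv_mul_cancel_left₀ (by norm_num : (6 : ℂ) ≠ 0)]
      exact h1
    have h3 := real_sim (mul_ne_zero (by norm_num) (q.re_ne _ hr)) (p.re_ne _ hr) h2
      (p.re_mem _ hr)
    obtain ⟨r, hr0, h4⟩ := h3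
    refine ⟨r / 6, div_ne_zero hr0 (by norm_num), ?_⟩
    push_cast
    linear_combination (1 / 6 : ℝ) * h4
  · rw [if_neg hv, if_neg hv]
    refine (area_same (hpair v.embedding)).trans ⟨1 / 36, by norm_num, ?_⟩
    rw [scl_area]
    have e : Complex.normSq (6 : ℂ)⁻¹ = 1 / 36 := by
      rw [map_inv₀, Complex.normSq_ofNat]
      norm_num
    rw [e]
    push_cast
    rfl

/-- the regulator of the twist with `1` -/
theorem reg_one {K : Type} [Field K] [NumberField K] {E : WeierstrassCurve K} (hE : E.IsElliptic)
    {d : K} (hd : d = 1) : Sim (reg (twist E d)) (reg E) := by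
  subst hd
  have hΔ : (twist E 1).Δ ≠ 0 := twist_disc E.isUnit_Δ.ne_zero one_ne_zero
  have hT : (twist E 1).IsElliptic := ⟨hΔ.isUnit⟩
  obtain ⟨r, hr, h⟩ := IsRegE.quot hT (reg_spec hT) (regE_vr (vr_short E) hΔ (reg_spec hE))
  exact ⟨r, hr, h⟩

section
variable {k : Type} [Field k] [NumberField k]

/-- periods over an extension of an extension -/
theorem om_restrict {E : WeierstrassCurve k} (p : Periods E) (Z₀ : Ext k) (K : Ext Z₀.F) :
    Sim (p.up (Z₀.restrict K).F).Om ((p.up Z₀.F).up K.F).Om :=
  om_indep' (map_restrict Z₀ K E) _ _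

/-- quadratic extensions: the periods -/
theorem quadO (Z₀ : Ext k) (Y : Ext Z₀.F) (hY : Module.finrank Z₀.F Y.F = 2) :
    ∃ D : 𝓞 Z₀.F, D ≠ 0 ∧ ∀ (E : WeierstrassCurve k), E.IsElliptic →
      ((∀ VS : HeightOneSpectrum (𝓞 Z₀.F) → WeierstrassCurve (𝓞 Z₀.F),
        (∀ v, IsMinAt (E.map (algebraMap k Z₀.F)) v (VS v)) →
      ∀ VS' : HeightOneSpectrum (𝓞 (Z₀.restrict Y).F) → WeierstrassCurve (𝓞 (Z₀.restrict Y).F),
        (∀ v, IsMinAt (E.map (algebraMap k (Z₀.restrict Y).F)) v (VS' v)) →
      ∀ VD : HeightOneSpectrum (𝓞 Z₀.F) → WeierstrassCurve (𝓞 Z₀.F),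
        (∀ v, IsMinAt (twist (E.map (algebraMap k Z₀.F)) (D : Z₀.F)) v (VD v)) →
      ∃ N0 : ℕ, N0 ≠ 0 ∧ ∀ N : ℕ, N ≠ 0 → N0 ∣ N → ∀ s : ℂ, 3 / 2 < s.re →
        LN N VS' s = LN N VS s * LN N VD s) ∧
      rkE E (Z₀.restrict Y) = rkE E Z₀ + rkT E Z₀ D) ∧
      (∀ (p : Periods E) (q : Periods (twist (E.map (algebraMap k Z₀.F)) (D : Z₀.F))),
        Sim (p.up (Z₀.restrict Y).F).Om ((p.up Z₀.F).Om * q.Om)) ∧
      Sim (reg (E.map (algebraMap k (Z₀.restrict Y).F)))
        (reg (E.map (algebraMap k Z₀.F)) * reg (twist (E.map (algebraMap k Z₀.F)) (D : Z₀.F))) := by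
  obtain ⟨D, B, α, hD0, hα, hmin⟩ := exists_quad hY
  have hDk : (D : Z₀.F) ≠ 0 := by
    rwa [Ne, FaithfulSMul.algebraMap_eq_zero_iff]
  have hdim : B.dim = 2 := by rw [← B.finrank, hY]
  have hα2 : (α : Y.F) ^ 2 = algebraMap Z₀.F Y.F (D : Z₀.F) := by
    have h3 := minpoly.aeval (𝓞 Z₀.F) α
    rw [hmin, map_sub, map_pow, aeval_X, aeval_C, sub_eq_zero] at h3
    have h4 := congrArg (algebraMap (𝓞 Y.F) Y.F) h3
    rw [map_pow] at h4
    exact h4
  have hgen : ∀ z : Y.F, ∃ x y : Z₀.F,
      z = algebraMap Z₀.F Y.F x + algebraMap Z₀.F Y.F y * (α : Y.F) := by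
    intro z
    obtain ⟨f, hf, hz⟩ := B.exists_eq_aeval z
    rw [hdim] at hf
    refine ⟨f.coeff 0, f.coeff 1, ?_⟩
    rw [hz, aeval_eq_sum_range' hf, Finset.sum_range_succ, Finset.sum_range_one, pow_zero,
      pow_one, Algebra.smul_def, Algebra.smul_def, mul_one, hα]
  have hαF : ∀ x : Z₀.F, algebraMap Z₀.F Y.F x ≠ (α : Y.F) := by
    intro x hx
    have h3 : Module.finrank Z₀.F Y.F ≤ 1 := by
      refine finrank_le_one (1 : Y.F) fun w => ?_
      obtain ⟨a, b, hab⟩ := hgen w
      refine ⟨a + b * x, ?_⟩
      rw [Algebra.smul_def, mul_one, map_add, map_mul, hx, ← hab]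
    omega
  refine ⟨D, hD0, fun E hE => ⟨⟨fun VS hVS VS' hVS' VD hVD => ?_, ?_⟩, fun p q => ?_, ?_⟩⟩
  · have hEZ : (E.map (algebraMap k Z₀.F)).IsElliptic := inferInstance
    exact quad_relN (F := Z₀.F) hD0 (Z := Y.F) B hα hmin
      (E.map (algebraMap k Z₀.F)) hEZ
      (V0 := VS) (VD := VD) (VZ := VS') (fun v => by
        have e1 : ((1 : 𝓞 Z₀.F) : Z₀.F) = 1 := map_one _
        rw [e1]
        exact isMinAt_one _ v _ (hVS v)) hVD (twist_elliptic hEZ hDk)
      (twist_elliptic hEZ (by simp)) (fun w => by
        have h1 := hVS' w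
        rw [map_restrict] at h1
        exact h1)
  · have hq : Algebra.IsQuadraticExtension Z₀.F Y.F := ⟨hY⟩
    have hEZ : (E.map (algebraMap k Z₀.F)).IsElliptic := inferInstance
    have h3 := rank_quad (F := Z₀.F) (Z := Y.F) (E.map (algebraMap k Z₀.F))
      (E.map (algebraMap k Z₀.F)).isUnit_Δ.ne_zero hDk hα2 hαF hgen
    rw [rank_twist_one _ (E.map (algebraMap k Z₀.F)).isUnit_Δ.ne_zero] at h3
    unfold rkE rkT
    rw [map_restrict]
    exact h3
  · exact (om_restrict p Z₀ Y).trans
      (om_quad (K := Z₀.F) (Y := Y.F) hDk hα2 hαF hgen (p.up Z₀.F) q)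
  · have hEZ : (E.map (algebraMap k Z₀.F)).IsElliptic := inferInstance
    have h3 := reg_quad (F := Z₀.F) (Z := Y.F) (E.map (algebraMap k Z₀.F)) hEZ hDk hα2 hαF hgen hY
    rw [map_restrict]
    exact h3

/-- The incomplete `L`-series of `E / K` is a product of incomplete `L`-series of quadratic twists of `E`
over extensions of `k` of degree less than `n`, for all `E / k`; the rank is the sum of the ranks, and the
period and the regulator are the products of the periods and of the regulators, up to rational numbers. -/
def FacO (n : ℕ) (K : Ext k) : Prop :=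
  ∃ (ι : Type) (_ : Fintype ι) (Z : ι → Ext k) (D : ∀ i, 𝓞 (Z i).F),
    (∀ i, D i ≠ 0 ∧ Module.finrank k (Z i).F < n) ∧
    ∑ i, Module.finrank k (Z i).F = Module.finrank k K.F ∧
    ∀ E : WeierstrassCurve k, E.IsElliptic →
      ((∀ V : HeightOneSpectrum (𝓞 K.F) → WeierstrassCurve (𝓞 K.F),
        (∀ v, IsMinAt (E.map (algebraMap k K.F)) v (V v)) →
      ∀ W : ∀ i, HeightOneSpectrum (𝓞 (Z i).F) → WeierstrassCurve (𝓞 (Z i).F),
        (∀ i v, IsMinAt (twist (E.map (algebraMap k (Z i).F)) (D i : (Z i).F)) v (W i v)) →
        ∃ N0 : ℕ, N0 ≠ 0 ∧ ∀ N : ℕ, N ≠ 0 → N0 ∣ N → ∀ s : ℂ, 3 / 2 < s.re →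
          LN N V s = ∏ i, LN N (W i) s) ∧
      ∀ r : ι → ℕ, (∀ i, rkT E (Z i) (D i) = r i) → rkE E K = ((∑ i, r i : ℕ) : Cardinal)) ∧
      (∀ (p : Periods E)
        (q : ∀ i, Periods (twist (E.map (algebraMap k (Z i).F)) (D i : (Z i).F))),
        Sim (p.up K.F).Om (∏ i, (q i).Om)) ∧
      Sim (reg (E.map (algebraMap k K.F)))
        (∏ i, reg (twist (E.map (algebraMap k (Z i).F)) (D i : (Z i).F)))

theorem facO_restrict {m n : ℕ} (Z₀ : Ext k) (K : Ext Z₀.F) (h : FacO m K)
    (hmn : Module.finrank k Z₀.F * m ≤ n) : FacO n (Z₀.restrict K) := by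
  obtain ⟨ι, hι, Z, D, hZ, hdeg, hL⟩ := h
  refine ⟨ι, hι, fun i => Z₀.restrict (Z i), fun i => D i, fun i => ⟨(hZ i).1, ?_⟩, ?_,
    fun E hE => ⟨⟨fun V hV W hW => ?_, fun r hr => ?_⟩, fun p q => ?_, ?_⟩⟩
  · rw [finrank_restrict]
    refine lt_of_lt_of_le ?_ hmn
    have : 0 < Module.finrank k Z₀.F := Module.finrank_pos
    exact Nat.mul_lt_mul_of_pos_left (hZ i).2 this
  · simp only [finrank_restrict]
    rw [← Finset.mul_sum, hdeg]
  · have hEZ : (E.map (algebraMap k Z₀.F)).IsElliptic := inferInstance
    refine (hL (E.map (algebraMap k Z₀.F)) hEZ).1.1 V (fun v => ?_) W (fun i v => ?_)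
    · have h1 := hV v
      rw [map_restrict] at h1
      exact h1
    · have h1 := hW i v
      rw [map_restrict] at h1
      exact h1
  · have hEZ : (E.map (algebraMap k Z₀.F)).IsElliptic := inferInstance
    have h1 := (hL (E.map (algebraMap k Z₀.F)) hEZ).1.2 r (fun i => by
      have h5 := hr i
      unfold rkT at h5 ⊢
      rw [map_restrict] at h5
      exact h5)
    unfold rkE at h1 ⊢
    rw [map_restrict]
    exact h1
  · have hEZ : (E.map (algebraMap k Z₀.F)).IsElliptic := inferInstance
    have hq : ∀ i, ∃ q' : Periods (twist ((E.map (algebraMap k Z₀.F)).map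
        (algebraMap Z₀.F (Z i).F)) (D i : (Z i).F)), q'.Om = (q i).Om := fun i =>
      ex_cast (by
        have e := map_restrict Z₀ (Z i) E
        exact congrArg (fun X => twist X (D i : (Z i).F)) e) (q i)
    choose q' hq' using hq
    have h1 := (hL (E.map (algebraMap k Z₀.F)) hEZ).2.1 (p.up Z₀.F) q'
    simp only [hq'] at h1
    exact (om_restrict p Z₀ K).trans h1
  · have hEZ : (E.map (algebraMap k Z₀.F)).IsElliptic := inferInstance
    have h1 := (hL (E.map (algebraMap k Z₀.F)) hEZ).2.2
    have h2 : ∀ i, reg (twist (E.map (algebraMap k (Z₀.restrict (Z i)).F)) (D i : (Z i).F)) =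
        reg (twist ((E.map (algebraMap k Z₀.F)).map (algebraMap Z₀.F (Z i).F)) (D i : (Z i).F)) := by
      intro i
      rw [map_restrict]
      rfl
    rw [map_restrict]
    exact h1.trans (Sim.of_eq (Finset.prod_congr rfl fun i _ => (h2 i).symm))

variable {M : Type} [Field M] [NumberField M] [Algebra k M] [IsGalois k M]

/-- **From permutation characters to incomplete `L`-series and periods.** -/
theorem facO_of_pos {n : ℕ} (K : Ext k) (f : K.F →ₐ[k] M)
    (h : Pos n f.fieldRange.fixingSubgroup) : FacO n K := by
  classical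
  obtain ⟨J, hJ, T, S, S', hT, hS, hfx⟩ := h
  have hidx : ∀ U : Subgroup Gal(M/k), Module.finrank k (IntermediateField.fixedField U) =
      U.index := by
    intro U
    rw [IntermediateField.finrank_eq_fixingSubgroup_index,
      IntermediateField.fixingSubgroup_fixedField]
  have hle : ∀ j, IntermediateField.fixedField (S j) ≤ IntermediateField.fixedField (S' j) :=
    fun j => IntermediateField.fixedField_antitone (hS j).1
  let FS : J → Ext k := fun j => ⟨IntermediateField.fixedField (S j)⟩
  let FS' : J → Ext k := fun j => ⟨IntermediateField.fixedField (S' j)⟩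
  let FT : Ext k := ⟨IntermediateField.fixedField T⟩
  have hquad : ∀ j, ∃ D : 𝓞 (FS j).F, D ≠ 0 ∧ ∀ (E : WeierstrassCurve k), E.IsElliptic →
      ((∀ VS : HeightOneSpectrum (𝓞 (FS j).F) → WeierstrassCurve (𝓞 (FS j).F),
        (∀ v, IsMinAt (E.map (algebraMap k (FS j).F)) v (VS v)) →
      ∀ VS' : HeightOneSpectrum (𝓞 (FS' j).F) → WeierstrassCurve (𝓞 (FS' j).F),
        (∀ v, IsMinAt (E.map (algebraMap k (FS' j).F)) v (VS' v)) →
      ∀ VD : HeightOneSpectrum (𝓞 (FS j).F) → WeierstrassCurve (𝓞 (FS j).F),
        (∀ v, IsMinAt (twist (E.map (algebraMap k (FS j).F)) (D : (FS j).F)) v (VD v)) →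
      ∃ N0 : ℕ, N0 ≠ 0 ∧ ∀ N : ℕ, N ≠ 0 → N0 ∣ N → ∀ s : ℂ, 3 / 2 < s.re →
        LN N VS' s = LN N VS s * LN N VD s) ∧
      rkE E (FS' j) = rkE E (FS j) + rkT E (FS j) D) ∧
      (∀ (p : Periods E) (q : Periods (twist (E.map (algebraMap k (FS j).F)) (D : (FS j).F))),
        Sim (p.up (FS' j).F).Om ((p.up (FS j).F).Om * q.Om)) ∧
      Sim (reg (E.map (algebraMap k (FS' j).F)))
        (reg (E.map (algebraMap k (FS j).F)) *
          reg (twist (E.map (algebraMap k (FS j).F)) (D : (FS j).F))) := by
    intro j
    let _ : Algebra (IntermediateField.fixedField (S j)) (IntermediateField.fixedField (S' j)) :=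
      (IntermediateField.inclusion (hle j)).toRingHom.toAlgebra
    have _ : IsScalarTower k (IntermediateField.fixedField (S j))
        (IntermediateField.fixedField (S' j)) :=
      IsScalarTower.of_algebraMap_eq fun x => rfl
    have h1 := Module.finrank_mul_finrank k (IntermediateField.fixedField (S j))
      (IntermediateField.fixedField (S' j))
    rw [hidx, hidx, ← Subgroup.relIndex_mul_index (hS j).1, (hS j).2.1, mul_comm 2] at h1
    have h0 : 0 < (S j).index := Nat.pos_of_ne_zero Subgroup.index_ne_zero_of_finite
    have h2 := Nat.eq_of_mul_eq_mul_left h0 h1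
    have h3 := quadO (k := k) ⟨IntermediateField.fixedField (S j)⟩
      ⟨IntermediateField.fixedField (S' j)⟩ h2
    rwa [ext_restrict] at h3
  choose D hD0 hDL using hquad
  refine ⟨Option J, inferInstance, fun o => match o with
    | none => FT
    | some j => FS j, fun o => match o with
    | none => 1
    | some j => D j, ?_, ?_, ?_⟩
  · rintro (_ | j)
    · refine ⟨one_ne_zero, ?_⟩
      change Module.finrank k (IntermediateField.fixedField T) < n
      rw [hidx]
      exact hT
    · refine ⟨hD0 j, ?_⟩
      change Module.finrank k (IntermediateField.fixedField (S j)) < n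
      rw [hidx]
      exact (hS j).2.2
  · have hone : ∀ U : Subgroup Gal(M/k), fx U 1 = U.index := by
      intro U
      rw [fx, Subgroup.index]
      congr 1
      exact Nat.card_congr (Equiv.subtypeUnivEquiv fun c => one_smul _ c)
    have h1 := hfx 1
    simp only [hone] at h1
    have h2 : f.fieldRange.fixingSubgroup.index = Module.finrank k K.F := by
      rw [← IntermediateField.finrank_eq_fixingSubgroup_index]
      exact (AlgEquiv.ofInjectiveField f).toLinearEquiv.finrank_eq.symm
    rw [Fintype.sum_option]
    change Module.finrank k (IntermediateField.fixedField T) +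
      ∑ j, Module.finrank k (IntermediateField.fixedField (S j)) = _
    have h3 : ∀ j, ((S' j).index : ℤ) - (S j).index = (S j).index := by
      intro j
      rw [← Subgroup.relIndex_mul_index (hS j).1, (hS j).2.1]
      push_cast
      ring
    simp only [h3] at h1
    simp only [hidx]
    rw [← h2]
    exact_mod_cast h1.symm
  · intro E hE
    have hfix : ∀ U : Subgroup Gal(M/k),
        (IntermediateField.val (IntermediateField.fixedField U)).fieldRange.fixingSubgroup = U := by
      intro U
      rw [IntermediateField.fieldRange_val, IntermediateField.fixingSubgroup_fixedField]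
    have hTw : ∀ j, (twist (E.map (algebraMap k (FS j).F)) (D j : (FS j).F)).IsElliptic := fun j =>
      twist_elliptic inferInstance (by
        rw [Ne, FaithfulSMul.algebraMap_eq_zero_iff]
        exact hD0 j)
    refine ⟨⟨fun V hV W hW => ?_, fun r hr => ?_⟩, fun p q => ?_, ?_⟩
    rotate_left
    · have hrk := fun j => (hDL j E hE).1.2
      choose rS hrS using fun j => exists_rkE E hE (FS j)
      have hrn : rkT E FT 1 = r none := hr none
      have hrs : ∀ j, rkT E (FS j) (D j) = r (some j) := fun j => hr (some j)
      rw [rkT_one E hE] at hrn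
      obtain ⟨r0, h1, h2⟩ := rel_rkE K f (fun o : Option (J ⊕ J) => (match o with
          | none => FT
          | some (Sum.inl j) => FS j
          | some (Sum.inr j) => FS' j : Ext k))
        (fun o => match o with
          | none => IntermediateField.val _
          | some (Sum.inl j) => IntermediateField.val _
          | some (Sum.inr j) => IntermediateField.val _)
        (fun o => match o with
          | none => 1
          | some (Sum.inl j) => -1
          | some (Sum.inr j) => 1)
        (fun σ => by
          have h1 := hfx σ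
          simp only [Fintype.sum_option, Fintype.sum_sum_type, hfix, FT, FS, FS']
          rw [Finset.sum_sub_distrib] at h1
          simp only [one_mul, neg_mul, Finset.sum_neg_distrib]
          linear_combination h1) E
        (fun o => match o with
          | none => r none
          | some (Sum.inl j) => rS j
          | some (Sum.inr j) => rS j + r (some j))
        (fun o => match o with
          | none => hrn
          | some (Sum.inl j) => hrS j
          | some (Sum.inr j) => by
            change rkE E (FS' j) = _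
            rw [hrk j, hrS j, hrs j]
            push_cast
            rfl)
      rw [h1]
      congr 1
      simp only [Fintype.sum_option, Fintype.sum_sum_type, one_mul, neg_mul,
        Finset.sum_neg_distrib] at h2
      rw [Fintype.sum_option]
      push_cast at h2
      rw [Finset.sum_add_distrib] at h2
      have h3 : (r0 : ℤ) = ((r none + ∑ j, r (some j) : ℕ) : ℤ) := by
        push_cast
        linear_combination h2
      exact_mod_cast h3
    · have h1 := om_perm K f (fun o : Option (J ⊕ J) => (match o with
          | none => FT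
          | some (Sum.inl j) => FS j
          | some (Sum.inr j) => FS' j : Ext k))
        (fun o => match o with
          | none => IntermediateField.val _
          | some (Sum.inl j) => IntermediateField.val _
          | some (Sum.inr j) => IntermediateField.val _)
        (fun o => match o with
          | none => 1
          | some (Sum.inl j) => -1
          | some (Sum.inr j) => 1)
        (fun σ => by
          have h1 := hfx σ
          simp only [Fintype.sum_option, Fintype.sum_sum_type, hfix, FT, FS, FS']
          rw [Finset.sum_sub_distrib] at h1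
          simp only [one_mul, neg_mul, Finset.sum_neg_distrib]
          linear_combination h1) p
      rw [Fintype.prod_option, Fintype.prod_sum_type] at h1
      rw [Fintype.prod_option]
      refine h1.trans (Sim.mul ?_ ?_)
      · change Sim ((p.up FT.F).Om ^ (1 : ℤ)) (q none).Om
        rw [zpow_one]
        exact (om_one (p.up FT.F) (map_one (algebraMap (𝓞 FT.F) FT.F)) (q none)).symm
      · change Sim ((∏ j, (p.up (FS j).F).Om ^ (-1 : ℤ)) * ∏ j, (p.up (FS' j).F).Om ^ (1 : ℤ)) _
        rw [← Finset.prod_mul_distrib]
        refine Sim.prod _ fun j _ => ?_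
        have h2 := (hDL j E hE).2.1 p (q (some j))
        rw [zpow_one]
        refine ((Sim.refl _).mul h2).trans (Sim.of_eq ?_)
        rw [zpow_neg_one, inv_mul_cancel_left₀ (om_ne _)]
    · have h1 := reg_perm K f (fun o : Option (J ⊕ J) => (match o with
          | none => FT
          | some (Sum.inl j) => FS j
          | some (Sum.inr j) => FS' j : Ext k))
        (fun o => match o with
          | none => IntermediateField.val _
          | some (Sum.inl j) => IntermediateField.val _
          | some (Sum.inr j) => IntermediateField.val _)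
        (fun o => match o with
          | none => 1
          | some (Sum.inl j) => -1
          | some (Sum.inr j) => 1)
        (fun σ => by
          have h1 := hfx σ
          simp only [Fintype.sum_option, Fintype.sum_sum_type, hfix, FT, FS, FS']
          rw [Finset.sum_sub_distrib] at h1
          simp only [one_mul, neg_mul, Finset.sum_neg_distrib]
          linear_combination h1) hE
      rw [Fintype.prod_option, Fintype.prod_sum_type] at h1
      rw [Fintype.prod_option]
      refine h1.trans (Sim.mul ?_ ?_)
      · change Sim (reg (E.map (algebraMap k FT.F)) ^ (1 : ℤ)) _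
        rw [zpow_one]
        exact (reg_one (E := E.map (algebraMap k FT.F)) inferInstance
          (map_one (algebraMap (𝓞 FT.F) FT.F))).symm
      · change Sim ((∏ j, (reg (E.map (algebraMap k (FS j).F))) ^ (-1 : ℤ)) *
          ∏ j, (reg (E.map (algebraMap k (FS' j).F))) ^ (1 : ℤ)) _
        rw [← Finset.prod_mul_distrib]
        refine Sim.prod _ fun j _ => ?_
        have h2 := (hDL j E hE).2.2
        have h3 : reg (E.map (algebraMap k (FS j).F)) ≠ 0 :=
          (reg_spec (W := E.map (algebraMap k (FS j).F)) inferInstance).ne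
        rw [zpow_one]
        refine ((Sim.refl _).mul h2).trans (Sim.of_eq ?_)
        rw [zpow_neg_one, inv_mul_cancel_left₀ h3]
    obtain ⟨VT, hVT⟩ := exists_minimal (E.map (algebraMap k FT.F)) inferInstance
    choose VS hVS using fun j => exists_minimal (E.map (algebraMap k (FS j).F)) inferInstance
    choose VS' hVS' using fun j => exists_minimal (E.map (algebraMap k (FS' j).F)) inferInstance
    choose Nj hNj0 hNj using fun j => (hDL j E hE).1.1 (VS j) (hVS j) (VS' j) (hVS' j) (W (some j))
      (hW (some j))
    obtain ⟨N1, hN1, hrel⟩ := L_relN (K := k) (L := M) (ι := Option (Option (J ⊕ J)))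
      (fun o => match o with
        | none => K
        | some none => FT
        | some (some (Sum.inl j)) => FS j
        | some (some (Sum.inr j)) => FS' j)
      (fun o => match o with
        | none => f
        | some none => IntermediateField.val _
        | some (some (Sum.inl j)) => IntermediateField.val _
        | some (some (Sum.inr j)) => IntermediateField.val _)
      (fun o => match o with
        | none => 1
        | some none => 0
        | some (some (Sum.inl j)) => 1
        | some (some (Sum.inr j)) => 0)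
      (fun o => match o with
        | none => 0
        | some none => 1
        | some (some (Sum.inl j)) => 0
        | some (some (Sum.inr j)) => 1)
      (fun σ => by
        have h1 := hfx σ
        simp only [Fintype.sum_option, Fintype.sum_sum_type, hfix, FT, FS, FS']
        simp only [Nat.cast_one, Nat.cast_zero, one_mul, zero_mul, Finset.sum_const_zero, zero_add,
          add_zero]
        rw [Finset.sum_sub_distrib] at h1
        linear_combination h1) E hE
      (fun o => match o with
        | none => V
        | some none => VT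
        | some (some (Sum.inl j)) => VS j
        | some (some (Sum.inr j)) => VS' j)
      (fun o => match o with
        | none => hV
        | some none => hVT
        | some (some (Sum.inl j)) => hVS j
        | some (some (Sum.inr j)) => hVS' j)
    refine ⟨N1 * ∏ j, Nj j, mul_ne_zero hN1 (Finset.prod_ne_zero_iff.2 fun j _ => hNj0 j),
      fun N hN hNN s hs => ?_⟩
    have h1 := hrel N hN ((dvd_mul_right _ _).trans hNN) s hs
    simp only [Fintype.prod_option, Fintype.prod_sum_type, pow_one, pow_zero, one_mul, mul_one,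
      Finset.prod_const_one] at h1
    have h2 : ∀ j, LN N (VS' j) s = LN N (VS j) s * LN N (W (some j)) s := fun j =>
      hNj j N hN (((Finset.dvd_prod_of_mem Nj (Finset.mem_univ j)).trans
        (dvd_mul_left _ _)).trans hNN) s hs
    have h3 : LN N VT s = LN N (W none) s :=
      LN_minimal (inferInstance : (E.map (algebraMap k FT.F)).IsElliptic) hVT
        (fun v => isMinAt_one' _ v _ (hW none v)) N s
    have hne : ∏ j, LN N (VS j) s ≠ 0 := Finset.prod_ne_zero_iff.2 fun j _ =>
      LN_ne_zero (inferInstance : (E.map (algebraMap k (FS j).F)).IsElliptic) (hVS j) hN hs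
    rw [Fintype.prod_option]
    refine mul_right_cancel₀ hne ?_
    rw [h1, Finset.prod_congr rfl fun j _ => h2 j, Finset.prod_mul_distrib, h3]
    ring

end

end Pool.Agent.H453.OM
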