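import Pool.Agent.H453.OM.FacO
import Pool.Agent.H453.EN.Ord

/-! Values at `s = 1`. -/

set_option autoImplicit false

namespace Pool.Agent.H453.OM

open NumberField IsDedekindDomain Complex
open Pool.Agent.H341R2.EC
open Pool.Agent.R433.MD
open Pool.Agent.H453.EN
open Pool.Agent.R333.BR (lf_one)
open Pool.Agent.H921R2.TatePole (nm)
open Pool.Agent.N19.BR (lf_ne_zero_one)
open Pool.Agent.Q92.LV (Periods Sim om_ne up_up reg)
open Pool.Agent.H453.MC (twist_elliptic ext_restrict)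

section fields
variable {k : Type} [Field k] [NumberField k] {K : Type} [Field K] [NumberField K] [Algebra k K]

theorem no_posO (hK : ¬ FacO (Module.finrank k K) (⟨K⟩ : Ext k)) : NP k K := by
  intro F M _ _ _ _ h
  have h1 := facO_of_pos (k := F) (M := M) ⟨K⟩ (IsScalarTower.toAlgHom F K M) h
  have h2 := facO_restrict (k := k) (m := Module.finrank F K) (n := Module.finrank k K) ⟨F⟩ ⟨K⟩ h1
    (Module.finrank_mul_finrank k F K).le
  rw [ext_restrict] at h2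
  exact hK h2

end fields

/-- the Euler factors at `s = 1` are rational -/
theorem lf_rat {F : Type} [Field F] [NumberField F]
    (V : HeightOneSpectrum (𝓞 F) → WeierstrassCurve (𝓞 F)) (v : HeightOneSpectrum (𝓞 F)) :
    ∃ q : ℚ, lf V 1 v = q := by
  have e1 : (1 : ℂ) - 2 * 1 = -1 := by norm_num
  unfold lf dlt
  rw [e1, Complex.cpow_neg_one]
  split_ifs
  · exact ⟨1 - (trc V v : ℚ) * ((nm v : ℕ) : ℚ)⁻¹ + 0 * ((nm v : ℕ) : ℚ)⁻¹, by push_cast; ring⟩
  · exact ⟨1 - (trc V v : ℚ) * ((nm v : ℕ) : ℚ)⁻¹ + 1 * ((nm v : ℕ) : ℚ)⁻¹, by push_cast; ring⟩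

theorem prod_rat {κ : Type} (t : Finset κ) (f : κ → ℂ) (h : ∀ i ∈ t, ∃ q : ℚ, f i = q) :
    ∃ q : ℚ, ∏ i ∈ t, f i = q := by
  classical
  induction t using Finset.induction_on with
  | empty => exact ⟨1, by rw [Finset.prod_empty, Rat.cast_one]⟩
  | insert a t ha ih =>
    obtain ⟨q, hq⟩ := ih fun i hi => h i (Finset.mem_insert_of_mem hi)
    obtain ⟨q', hq'⟩ := h a (Finset.mem_insert_self _ _)
    exact ⟨q' * q, by rw [Finset.prod_insert ha, hq, hq', Rat.cast_mul]⟩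

/-- **Values at one.** -/
theorem value_at_one {k : Type} [Field k] [NumberField k] {n : ℕ} {K : Ext k} (h : FacO n K)
    (E : WeierstrassCurve k) (hE : E.IsElliptic) {U : Set ℂ} (hU : ∀ s ∈ U, 1 < s.re ∨ s = 1)
    (hc : ∀ Z : Ext k, Module.finrank k Z.F < n → ∀ D : 𝓞 Z.F, D ≠ 0 →
      ∃ Λ : ℂ → ℂ, AnalyticOnNhd ℂ Λ U ∧
        (∀ W : HeightOneSpectrum (𝓞 Z.F) → WeierstrassCurve (𝓞 Z.F),
          (∀ v, IsMinAt (twist (E.map (algebraMap k Z.F)) (D : Z.F)) v (W v)) →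
          ∀ s : ℂ, 3 / 2 < s.re → Λ s = LL W s) ∧
        ∀ q : Periods (twist (E.map (algebraMap k Z.F)) (D : Z.F)), ∃ a : ℚ,
          Λ 1 = a * ((q.Om : ℝ) : ℂ)) :
    ∃ Λ : ℂ → ℂ, AnalyticOnNhd ℂ Λ U ∧
      (∀ V : HeightOneSpectrum (𝓞 K.F) → WeierstrassCurve (𝓞 K.F),
        (∀ v, IsMinAt (E.map (algebraMap k K.F)) v (V v)) →
        ∀ s : ℂ, 3 / 2 < s.re → Λ s = LL V s) ∧
      ∀ p : Periods (E.map (algebraMap k K.F)), ∃ a : ℚ, Λ 1 = a * ((p.Om : ℝ) : ℂ) := by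
  classical
  obtain ⟨ι, hι, Z, D, hZ, -, hL⟩ := h
  have hEK : (E.map (algebraMap k K.F)).IsElliptic := inferInstance
  have hT : ∀ i, (twist (E.map (algebraMap k (Z i).F)) (D i : (Z i).F)).IsElliptic := fun i =>
    twist_elliptic inferInstance (by
      rw [Ne, FaithfulSMul.algebraMap_eq_zero_iff]
      exact (hZ i).1)
  obtain ⟨V, hV⟩ := exists_minimal (E.map (algebraMap k K.F)) hEK
  choose W hW using fun i => exists_minimal _ (hT i)
  choose Λ hΛ hΛL hΛ1 using fun i => hc (Z i) (hZ i).2 (D i) (hZ i).1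
  obtain ⟨N, hN, hrel⟩ := (hL E hE).1.1 V hV W hW
  have hne : ∀ {F : Type} [Field F] [NumberField F]
      (V : HeightOneSpectrum (𝓞 F) → WeierstrassCurve (𝓞 F)) (s : ℂ), (1 < s.re ∨ s = 1) →
      ∀ v, lf V s v ≠ 0 := by
    rintro F _ _ V s (hs | rfl) v
    · exact lf_ne_zero_one V hs v
    · exact lf_one V v
  have hden : ∀ s : ℂ, AnalyticAt ℂ (fun s => ∏ v ∈ (finite_dv (K := K.F) hN).toFinset, lf V s v) s :=
    fun s => Finset.analyticAt_fun_prod _ fun v _ => analytic_lf V v s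
  have hden0 : ∀ s : ℂ, (1 < s.re ∨ s = 1) →
      ∏ v ∈ (finite_dv (K := K.F) hN).toFinset, lf V s v ≠ 0 := fun s hs =>
    Finset.prod_ne_zero_iff.2 fun v _ => hne V s hs v
  have hnum : ∀ i, ∀ s : ℂ, AnalyticAt ℂ
      (fun s => ∏ v ∈ (finite_dv (K := (Z i).F) hN).toFinset, lf (W i) s v) s := fun i s =>
    Finset.analyticAt_fun_prod _ fun v _ => analytic_lf (W i) v s
  refine ⟨fun s => (∏ i, (Λ i s * ∏ v ∈ (finite_dv (K := (Z i).F) hN).toFinset, lf (W i) s v)) *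
    (∏ v ∈ (finite_dv (K := K.F) hN).toFinset, lf V s v)⁻¹, fun s hs => ?_, fun V' hV' s hs => ?_,
    fun p' => ?_⟩
  · exact (Finset.analyticAt_fun_prod _ fun i _ => (hΛ i s hs).fun_mul (hnum i s)).fun_mul
      ((hden s).fun_inv (hden0 s (hU s hs)))
  · have h1 := hrel N hN dvd_rfl s hs
    rw [LN_eq hEK hV hN hs] at h1
    have h2 : LL V' s = LL V s := Pool.Agent.N19.BR.LL_minimal hEK hV' hV s
    have h3 := hden0 s (Or.inl (by linarith))
    change (∏ i, (Λ i s * ∏ v ∈ (finite_dv (K := (Z i).F) hN).toFinset, lf (W i) s v)) *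
      (∏ v ∈ (finite_dv (K := K.F) hN).toFinset, lf V s v)⁻¹ = LL V' s
    rw [← div_eq_mul_inv, div_eq_iff h3, h2, h1]
    refine Finset.prod_congr rfl fun i _ => ?_
    rw [hΛL i (W i) (hW i) s hs, LN_eq (hT i) (hW i) hN hs]
  · obtain ⟨p⟩ := exists_base p'
    have hq : ∀ i, Nonempty (Periods (twist (E.map (algebraMap k (Z i).F)) (D i : (Z i).F))) := by
      intro i
      obtain ⟨q, -⟩ := exists_tw (p.up (Z i).F) (d := (D i : (Z i).F)) (by
        rw [Ne, FaithfulSMul.algebraMap_eq_zero_iff]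
        exact (hZ i).1)
      exact ⟨q⟩
    have q := fun i => Classical.choice (hq i)
    obtain ⟨r, hr, h1⟩ := (om_indep p' (p.up K.F)).trans ((hL E hE).2.1 p q)
    choose a ha using fun i => hΛ1 i (q i)
    obtain ⟨b, hb⟩ := prod_rat (finite_dv (K := K.F) hN).toFinset (lf V 1) fun v _ => lf_rat V v
    choose c hc using fun i => prod_rat (finite_dv (K := (Z i).F) hN).toFinset (lf (W i) 1)
      fun v _ => lf_rat (W i) v
    refine ⟨(∏ i, (a i * c i)) * b⁻¹ * r⁻¹, ?_⟩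
    change (∏ i, (Λ i 1 * ∏ v ∈ (finite_dv (K := (Z i).F) hN).toFinset, lf (W i) 1 v)) *
      (∏ v ∈ (finite_dv (K := K.F) hN).toFinset, lf V 1 v)⁻¹ = _
    simp only [ha, hc]
    rw [hb, h1]
    have hr' : ((r : ℚ) : ℂ) ≠ 0 := by exact_mod_cast hr
    push_cast
    simp only [Finset.prod_mul_distrib]
    field_simp

theorem sim_c {x y : ℝ} (h : Sim x y) : Sim (x : ℂ) (y : ℂ) := by
  obtain ⟨q, hq, h⟩ := h
  exact ⟨q, hq, by rw [h]; push_cast; rfl⟩

/-- the Euler factors at `s = 1` are rational -/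
theorem lf_sim {F : Type} [Field F] [NumberField F]
    (V : HeightOneSpectrum (𝓞 F) → WeierstrassCurve (𝓞 F)) (v : HeightOneSpectrum (𝓞 F)) :
    Sim (lf V 1 v) (1 : ℂ) := by
  obtain ⟨q, hq⟩ := lf_rat V v
  refine ⟨q, ?_, by rw [hq, mul_one]⟩
  rintro rfl
  apply lf_one V v
  rw [hq, Rat.cast_zero]

/-- **Leading coefficients at one.** -/
theorem lead_at_one {k : Type} [Field k] [NumberField k] {n : ℕ} {K : Ext k} (h : FacO n K)
    (t : ℕ∞) (E : WeierstrassCurve k) (hE : E.IsElliptic) {U : Set ℂ} (hU : ∀ s ∈ U, 1 < s.re ∨ s = 1)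
    (h1U : 1 ∈ U)
    (hc : ∀ Z : Ext k, Module.finrank k Z.F < n → ∀ D : 𝓞 Z.F, D ≠ 0 →
      ∃ Λ : ℂ → ℂ, AnalyticOnNhd ℂ Λ U ∧
        (∀ W : HeightOneSpectrum (𝓞 Z.F) → WeierstrassCurve (𝓞 Z.F),
          (∀ v, IsMinAt (twist (E.map (algebraMap k Z.F)) (D : Z.F)) v (W v)) →
          ∀ s : ℂ, 3 / 2 < s.re → Λ s = LL W s) ∧
        ∃ m : ℕ, analyticOrderAt Λ 1 = m ∧ ((m : ℕ∞) ≤ t → rkT E Z D = m ∧
          ∀ q : Periods (twist (E.map (algebraMap k Z.F)) (D : Z.F)),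
            Sim (meromorphicTrailingCoeffAt Λ 1)
              ((q.Om * reg (twist (E.map (algebraMap k Z.F)) (D : Z.F)) : ℝ) : ℂ))) :
    ∃ Λ : ℂ → ℂ, AnalyticOnNhd ℂ Λ U ∧
      (∀ V : HeightOneSpectrum (𝓞 K.F) → WeierstrassCurve (𝓞 K.F),
        (∀ v, IsMinAt (E.map (algebraMap k K.F)) v (V v)) →
        ∀ s : ℂ, 3 / 2 < s.re → Λ s = LL V s) ∧
      ∃ m : ℕ, analyticOrderAt Λ 1 = m ∧ ((m : ℕ∞) ≤ t → rkE E K = m ∧
        ∀ p : Periods (E.map (algebraMap k K.F)),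
          Sim (meromorphicTrailingCoeffAt Λ 1)
            ((p.Om * reg (E.map (algebraMap k K.F)) : ℝ) : ℂ)) := by
  classical
  obtain ⟨ι, hι, Z, D, hZ, -, hL⟩ := h
  have hEK : (E.map (algebraMap k K.F)).IsElliptic := inferInstance
  have hT : ∀ i, (twist (E.map (algebraMap k (Z i).F)) (D i : (Z i).F)).IsElliptic := fun i =>
    twist_elliptic inferInstance (by
      rw [Ne, FaithfulSMul.algebraMap_eq_zero_iff]
      exact (hZ i).1)
  obtain ⟨V, hV⟩ := exists_minimal (E.map (algebraMap k K.F)) hEK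
  choose W hW using fun i => exists_minimal _ (hT i)
  choose Λ hΛ hΛL m hm hΛ1 using fun i => hc (Z i) (hZ i).2 (D i) (hZ i).1
  obtain ⟨N, hN, hrel⟩ := (hL E hE).1.1 V hV W hW
  have hne : ∀ {F : Type} [Field F] [NumberField F]
      (V : HeightOneSpectrum (𝓞 F) → WeierstrassCurve (𝓞 F)) (s : ℂ), (1 < s.re ∨ s = 1) →
      ∀ v, lf V s v ≠ 0 := by
    rintro F _ _ V s (hs | rfl) v
    · exact lf_ne_zero_one V hs v
    · exact lf_one V v
  have hden : ∀ s : ℂ, AnalyticAt ℂ (fun s => ∏ v ∈ (finite_dv (K := K.F) hN).toFinset, lf V s v) s :=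
    fun s => Finset.analyticAt_fun_prod _ fun v _ => analytic_lf V v s
  have hden0 : ∀ s : ℂ, (1 < s.re ∨ s = 1) →
      ∏ v ∈ (finite_dv (K := K.F) hN).toFinset, lf V s v ≠ 0 := fun s hs =>
    Finset.prod_ne_zero_iff.2 fun v _ => hne V s hs v
  have hnum : ∀ i, ∀ s : ℂ, AnalyticAt ℂ
      (fun s => ∏ v ∈ (finite_dv (K := (Z i).F) hN).toFinset, lf (W i) s v) s := fun i s =>
    Finset.analyticAt_fun_prod _ fun v _ => analytic_lf (W i) v s
  have hnum0 : ∀ i, ∀ s : ℂ, (1 < s.re ∨ s = 1) →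
      ∏ v ∈ (finite_dv (K := (Z i).F) hN).toFinset, lf (W i) s v ≠ 0 := fun i s hs =>
    Finset.prod_ne_zero_iff.2 fun v _ => hne (W i) s hs v
  have hfac : ∀ i, AnalyticAt ℂ (fun s => Λ i s *
      ∏ v ∈ (finite_dv (K := (Z i).F) hN).toFinset, lf (W i) s v) 1 := fun i =>
    (hΛ i 1 h1U).fun_mul (hnum i 1)
  refine ⟨fun s => (∏ i, (Λ i s * ∏ v ∈ (finite_dv (K := (Z i).F) hN).toFinset, lf (W i) s v)) *
    (∏ v ∈ (finite_dv (K := K.F) hN).toFinset, lf V s v)⁻¹, fun s hs => ?_, fun V' hV' s hs => ?_,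
    ∑ i, m i, ?_, fun hmt => ⟨(hL E hE).1.2 m fun i => ?_, fun p' => ?_⟩⟩
  · exact (Finset.analyticAt_fun_prod _ fun i _ => (hΛ i s hs).fun_mul (hnum i s)).fun_mul
      ((hden s).fun_inv (hden0 s (hU s hs)))
  · have h1 := hrel N hN dvd_rfl s hs
    rw [LN_eq hEK hV hN hs] at h1
    have h2 : LL V' s = LL V s := Pool.Agent.N19.BR.LL_minimal hEK hV' hV s
    have h3 := hden0 s (Or.inl (by linarith))
    change (∏ i, (Λ i s * ∏ v ∈ (finite_dv (K := (Z i).F) hN).toFinset, lf (W i) s v)) *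
      (∏ v ∈ (finite_dv (K := K.F) hN).toFinset, lf V s v)⁻¹ = LL V' s
    rw [← div_eq_mul_inv, div_eq_iff h3, h2, h1]
    refine Finset.prod_congr rfl fun i _ => ?_
    rw [hΛL i (W i) (hW i) s hs, LN_eq (hT i) (hW i) hN hs]
  · rw [order_mul_ne (Finset.analyticAt_fun_prod _ fun i _ => hfac i)
      ((hden 1).fun_inv (hden0 1 (Or.inr rfl))) (inv_ne_zero (hden0 1 (Or.inr rfl)))]
    exact order_prod Finset.univ _ m (fun i _ => hfac i) fun i _ => by
      rw [order_mul_ne (hΛ i 1 h1U) (hnum i 1) (hnum0 i 1 (Or.inr rfl)), hm i]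
  · refine (hΛ1 i (le_trans ?_ hmt)).1
    exact_mod_cast Finset.single_le_sum (f := m) (fun j _ => Nat.zero_le _) (Finset.mem_univ i)
  · have hmi : ∀ i, (m i : ℕ∞) ≤ t := fun i => le_trans (by
      exact_mod_cast Finset.single_le_sum (f := m) (fun j _ => Nat.zero_le _) (Finset.mem_univ i))
      hmt
    obtain ⟨p⟩ := exists_base p'
    have hq : ∀ i, Nonempty (Periods (twist (E.map (algebraMap k (Z i).F)) (D i : (Z i).F))) := by
      intro i
      obtain ⟨q, -⟩ := exists_tw (p.up (Z i).F) (d := (D i : (Z i).F)) (by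
        rw [Ne, FaithfulSMul.algebraMap_eq_zero_iff]
        exact (hZ i).1)
      exact ⟨q⟩
    have q := fun i => Classical.choice (hq i)
    have h1 := (om_indep p' (p.up K.F)).trans ((hL E hE).2.1 p q)
    have h2 := h1.mul (hL E hE).2.2
    rw [← Finset.prod_mul_distrib] at h2
    have h3 : meromorphicTrailingCoeffAt (fun s => (∏ i, (Λ i s *
        ∏ v ∈ (finite_dv (K := (Z i).F) hN).toFinset, lf (W i) s v)) *
        (∏ v ∈ (finite_dv (K := K.F) hN).toFinset, lf V s v)⁻¹) 1 =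
        (∏ i, (meromorphicTrailingCoeffAt (Λ i) 1 *
          ∏ v ∈ (finite_dv (K := (Z i).F) hN).toFinset, lf (W i) 1 v)) *
        (∏ v ∈ (finite_dv (K := K.F) hN).toFinset, lf V 1 v)⁻¹ := by
      rw [MeromorphicAt.meromorphicTrailingCoeffAt_fun_mul
        (Finset.analyticAt_fun_prod _ fun i _ => hfac i).meromorphicAt
        ((hden 1).fun_inv (hden0 1 (Or.inr rfl))).meromorphicAt,
        meromorphicTrailingCoeffAt_fun_prod fun i _ => (hfac i).meromorphicAt,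
        AnalyticAt.meromorphicTrailingCoeffAt_of_ne_zero ((hden 1).fun_inv (hden0 1 (Or.inr rfl)))
          (inv_ne_zero (hden0 1 (Or.inr rfl)))]
      congr 1
      refine Finset.prod_congr rfl fun i _ => ?_
      rw [MeromorphicAt.meromorphicTrailingCoeffAt_fun_mul (hΛ i 1 h1U).meromorphicAt
        (hnum i 1).meromorphicAt,
        AnalyticAt.meromorphicTrailingCoeffAt_of_ne_zero (hnum i 1) (hnum0 i 1 (Or.inr rfl))]
    rw [h3]
    refine Sim.trans ?_ (sim_c h2).symm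
    rw [Complex.ofReal_prod]
    have h4 : Sim ((∏ v ∈ (finite_dv (K := K.F) hN).toFinset, lf V 1 v)⁻¹) (1 : ℂ) := by
      have h5 := (Pool.Agent.Q92.LV.Sim.one_prod _ fun v (_ : v ∈ (finite_dv (K := K.F) hN).toFinset) =>
        lf_sim V v).zpow (-1)
      rw [zpow_neg_one, zpow_neg_one, inv_one] at h5
      exact h5
    have h6 : Sim (∏ i, (meromorphicTrailingCoeffAt (Λ i) 1 *
          ∏ v ∈ (finite_dv (K := (Z i).F) hN).toFinset, lf (W i) 1 v))
        (∏ i, (((q i).Om * reg (twist (E.map (algebraMap k (Z i).F)) (D i : (Z i).F)) : ℝ) : ℂ)) := by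
      refine Sim.prod _ fun i _ => ?_
      have h7 := ((hΛ1 i (hmi i)).2 (q i)).mul (Pool.Agent.Q92.LV.Sim.one_prod _
        fun v (_ : v ∈ (finite_dv (K := (Z i).F) hN).toFinset) => lf_sim (W i) v)
      rwa [mul_one] at h7
    have h8 := h6.mul h4
    rwa [mul_one] at h8

end Pool.Agent.H453.OM
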