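import Pool.Agent.H453.MC.Shape
import Pool.Agent.H453.BS.Shape
import Pool.Agent.H453.OM.Nice

/-! Fields over which the `L`-series, the ranks, the periods and the regulators of all elliptic curves are
given by those of twists over smaller fields. -/

set_option autoImplicit false

namespace Pool.Agent.H453.OM

open NumberField IsDedekindDomain Complex Polynomial
open Pool.Agent.H341R2.EC
open Pool.Agent.R433.MD
open Pool.Agent.N19.BR (cnt IsRel LL_minimal)
open Pool.Agent.H453.MC (twist_elliptic isMinAt_one' exists_quad)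
open Pool.Agent.R333.BR (Pt)
open Pool.Agent.Q92.LV (Periods Sim om_ne reg reg_spec)
open Pool.Agent.H453.BS (rank_twist_one rank_quad rank_rel' NR)

section
variable {k : Type} [Field k] [NumberField k]

open scoped Classical in
/-- `L(E / K, s)` is a product of the `L`-series of quadratic twists of `E` over extensions of `k` of
degree less than `n`, and the rank of `E(K)` is the corresponding sum, for all `E / k` -/
def FacZ (n : ℕ) (K : Ext k) : Prop :=
  ∃ (ι : Type) (_ : Fintype ι) (Z : ι → Ext k) (D : ∀ i, 𝓞 (Z i).F) (e : ι → ℤ),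
    (∀ i, D i ≠ 0 ∧ Module.finrank k (Z i).F < n) ∧
    ∀ E : WeierstrassCurve k, E.IsElliptic →
      (∀ V : HeightOneSpectrum (𝓞 K.F) → WeierstrassCurve (𝓞 K.F),
        (∀ v, IsMinAt (E.map (algebraMap k K.F)) v (V v)) →
      ∀ W : ∀ i, HeightOneSpectrum (𝓞 (Z i).F) → WeierstrassCurve (𝓞 (Z i).F),
        (∀ i v, IsMinAt (twist (E.map (algebraMap k (Z i).F)) (D i : (Z i).F)) v (W i v)) →
        ∃ R : ℂ → ℂ, Nice R ∧ ∀ s : ℂ, 3 / 2 < s.re → LL V s = R s * ∏ i, LL (W i) s ^ e i) ∧
      (∀ r : ι → ℕ, (∀ i, Module.rank ℤ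
          (twist (E.map (algebraMap k (Z i).F)) (D i : (Z i).F)).toAffine.Point = r i) →
        ∃ r0 : ℕ, Module.rank ℤ (E.map (algebraMap k K.F)).toAffine.Point = r0 ∧
          (r0 : ℤ) = ∑ i, e i * (r i : ℤ)) ∧
      (∀ (p : Periods E)
        (q : ∀ i, Periods (twist (E.map (algebraMap k (Z i).F)) (D i : (Z i).F))),
        Sim (p.up K.F).Om (∏ i, (q i).Om ^ e i)) ∧
      Sim (reg (E.map (algebraMap k K.F)))
        (∏ i, reg (twist (E.map (algebraMap k (Z i).F)) (D i : (Z i).F)) ^ e i)

theorem basis_facts {F Y : Type} [Field F] [NumberField F] [Field Y] [NumberField Y] [Algebra F Y]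
    {D : 𝓞 F} {α : 𝓞 Y} (B : PowerBasis F Y) (hdim : B.dim = 2) (hα : (α : Y) = B.gen)
    (hmin : minpoly (𝓞 F) α = X ^ 2 - C D) :
    (α : Y) ^ 2 = algebraMap F Y (D : F) ∧ (∀ x : F, algebraMap F Y x ≠ (α : Y)) ∧
      ∀ z : Y, ∃ x y : F, z = algebraMap F Y x + algebraMap F Y y * (α : Y) := by
  have hα2 : (α : Y) ^ 2 = algebraMap F Y (D : F) := by
    have h3 := minpoly.aeval (𝓞 F) α
    rw [hmin, map_sub, map_pow, aeval_X, aeval_C, sub_eq_zero] at h3
    have h4 := congrArg (algebraMap (𝓞 Y) Y) h3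
    rw [map_pow] at h4
    exact h4
  have hgen : ∀ z : Y, ∃ x y : F, z = algebraMap F Y x + algebraMap F Y y * (α : Y) := by
    intro z
    obtain ⟨f, hf, hz⟩ := B.exists_eq_aeval z
    rw [hdim] at hf
    refine ⟨f.coeff 0, f.coeff 1, ?_⟩
    rw [hz, aeval_eq_sum_range' hf, Finset.sum_range_succ, Finset.sum_range_one, pow_zero,
      pow_one, Algebra.smul_def, Algebra.smul_def, mul_one, hα]
  refine ⟨hα2, ?_, hgen⟩
  intro x hx
  have h3 : Module.finrank F Y ≤ 1 := by
    refine finrank_le_one (1 : Y) fun w => ?_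
    obtain ⟨a, b, hab⟩ := hgen w
    refine ⟨a + b * x, ?_⟩
    rw [Algebra.smul_def, mul_one, map_add, map_mul, hx, ← hab]
  have h4 := B.finrank
  omega

theorem facZ_small {n : ℕ} (K : Ext k) (h : Module.finrank k K.F < n) : FacZ n K := by
  classical
  refine ⟨Unit, inferInstance, fun _ => K, fun _ => 1, fun _ => 1, fun _ => ⟨one_ne_zero, h⟩,
    fun E hE => ⟨fun V hV W hW => ⟨fun _ => 1, Nice.one, fun s hs => ?_⟩, fun r hr => ⟨r (), ?_, ?_⟩,
      fun p q => ?_, ?_⟩⟩
  · rw [Fintype.prod_unique, zpow_one, one_mul]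
    exact LL_minimal (inferInstance : (E.map (algebraMap k K.F)).IsElliptic) hV
      (fun v => isMinAt_one' _ v _ (hW () v)) s
  · rw [← hr ()]
    have e1 : (((1 : 𝓞 K.F) : K.F)) = 1 := map_one (algebraMap (𝓞 K.F) K.F)
    rw [e1]
    have hE' : (E.map (algebraMap k K.F)).IsElliptic := inferInstance
    exact (rank_twist_one _ (E.map (algebraMap k K.F)).isUnit_Δ.ne_zero).symm
  · rw [Fintype.sum_unique, one_mul]
  · rw [Fintype.prod_unique, zpow_one]
    exact (om_one (p.up K.F) (map_one (algebraMap (𝓞 K.F) K.F)) (q ())).symm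
  · rw [Fintype.prod_unique, zpow_one]
    exact (reg_one (E := E.map (algebraMap k K.F)) inferInstance
      (map_one (algebraMap (𝓞 K.F) K.F))).symm

theorem facZ_quad {n : ℕ} (Z₀ : Ext k) (Y : Ext Z₀.F) (hY : Module.finrank Z₀.F Y.F = 2)
    (h : Module.finrank k Z₀.F < n) : FacZ n (Z₀.restrict Y) := by
  classical
  obtain ⟨D, B, α, hD0, hα, hmin⟩ := exists_quad hY
  have hDk : (D : Z₀.F) ≠ 0 := by
    rwa [Ne, FaithfulSMul.algebraMap_eq_zero_iff]
  refine ⟨Bool, inferInstance, fun _ => Z₀, fun b => if b then 1 else D, fun _ => 1, fun b => ⟨?_, h⟩,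
    fun E hE => ⟨fun V hV W hW => ?_, fun r hr => ⟨r true + r false, ?_, ?_⟩, fun p q => ?_, ?_⟩⟩
  · cases b
    · simpa using hD0
    · simp
  · have hEZ : (E.map (algebraMap k Z₀.F)).IsElliptic := inferInstance
    have hV' : ∀ v, IsMinAt ((E.map (algebraMap k Z₀.F)).map (algebraMap Z₀.F Y.F)) v (V v) := by
      intro v
      have h1 := hV v
      rw [map_restrict] at h1
      exact h1
    have hW1 := hW true
    have hW2 := hW false
    simp only [if_true] at hW1
    simp only [Bool.false_eq_true, if_false] at hW2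
    obtain ⟨R, hR, hRL⟩ := quad_rel_nice (F := Z₀.F) hD0 (Z := Y.F) B hα hmin
      (E.map (algebraMap k Z₀.F)) hEZ hW1 hW2 (twist_elliptic hEZ hDk)
      (twist_elliptic hEZ (by simp)) hV'
    refine ⟨R, hR, fun s hs => ?_⟩
    rw [Fintype.prod_bool, zpow_one, zpow_one]
    exact hRL s hs
  · have h1 : Module.rank ℤ (twist (E.map (algebraMap k Z₀.F))
        (((1 : 𝓞 Z₀.F)) : Z₀.F)).toAffine.Point = r true := hr true
    have h2 : Module.rank ℤ (twist (E.map (algebraMap k Z₀.F))
        (D : Z₀.F)).toAffine.Point = r false := hr false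
    have e1 : (((1 : 𝓞 Z₀.F) : Z₀.F)) = 1 := map_one (algebraMap (𝓞 Z₀.F) Z₀.F)
    rw [e1] at h1
    have hq : Algebra.IsQuadraticExtension Z₀.F Y.F := ⟨hY⟩
    have hEZ : (E.map (algebraMap k Z₀.F)).IsElliptic := inferInstance
    have hdim : B.dim = 2 := by rw [← B.finrank, hY]
    have hα2 : (α : Y.F) ^ 2 = algebraMap Z₀.F Y.F (D : Z₀.F) := by
      have h3 := minpoly.aeval (𝓞 Z₀.F) α
      rw [hmin, map_sub, map_pow, aeval_X, aeval_C, sub_eq_zero] at h3
      have h4 := congrArg (algebraMap (𝓞 Y.F) Y.F) h3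
      rw [map_pow] at h4
      exact h4
    have hgen : ∀ z : Y.F, ∃ x y : Z₀.F,
        z = algebraMap Z₀.F Y.F x + algebraMap Z₀.F Y.F y * (α : Y.F) := by
      intro z
      obtain ⟨f, hf, hz⟩ := B.exists_eq_aeval z
      rw [hdim] at hf
      refine ⟨f.coeff 0, f.coeff 1, ?_⟩
      rw [hz, aeval_eq_sum_range' hf, Finset.sum_range_succ, Finset.sum_range_one, pow_zero,
        pow_one, Algebra.smul_def, Algebra.smul_def, mul_one, hα]
    have hαF : ∀ x : Z₀.F, algebraMap Z₀.F Y.F x ≠ (α : Y.F) := by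
      intro x hx
      have h3 : Module.finrank Z₀.F Y.F ≤ 1 := by
        refine finrank_le_one (1 : Y.F) fun w => ?_
        obtain ⟨a, b, hab⟩ := hgen w
        refine ⟨a + b * x, ?_⟩
        rw [Algebra.smul_def, mul_one, map_add, map_mul, hx, ← hab]
      omega
    have h3 := rank_quad (F := Z₀.F) (Z := Y.F) (E.map (algebraMap k Z₀.F))
      (E.map (algebraMap k Z₀.F)).isUnit_Δ.ne_zero hDk hα2 hαF hgen
    rw [h1, h2] at h3
    rw [map_restrict]
    push_cast
    exact h3
  · rw [Fintype.sum_bool, one_mul, one_mul]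
    push_cast
    rfl
  · rw [Fintype.prod_bool, zpow_one, zpow_one]
    have hdim : B.dim = 2 := by rw [← B.finrank, hY]
    obtain ⟨hα2, hαF, hgen⟩ := basis_facts B hdim hα hmin
    refine (om_restrict p Z₀ Y).trans ((om_quad (K := Z₀.F) (Y := Y.F) hDk hα2 hαF hgen (p.up Z₀.F)
      (q false)).trans (Sim.mul ?_ (Sim.refl _)))
    exact (om_one (p.up Z₀.F) (map_one (algebraMap (𝓞 Z₀.F) Z₀.F)) (q true)).symm
  · rw [Fintype.prod_bool, zpow_one, zpow_one]
    have hEZ : (E.map (algebraMap k Z₀.F)).IsElliptic := inferInstance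
    have hdim : B.dim = 2 := by rw [← B.finrank, hY]
    obtain ⟨hα2, hαF, hgen⟩ := basis_facts B hdim hα hmin
    have h3 := reg_quad (F := Z₀.F) (Z := Y.F) (E.map (algebraMap k Z₀.F)) hEZ hDk hα2 hαF hgen hY
    rw [map_restrict]
    refine h3.trans (Sim.mul ?_ (Sim.refl _))
    exact (reg_one (E := E.map (algebraMap k Z₀.F)) inferInstance
      (map_one (algebraMap (𝓞 Z₀.F) Z₀.F))).symm

theorem facZ_restrict {m n : ℕ} (Z₀ : Ext k) (K : Ext Z₀.F) (h : FacZ m K)
    (hmn : Module.finrank k Z₀.F * m ≤ n) : FacZ n (Z₀.restrict K) := by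
  classical
  obtain ⟨ι, hι, Z, D, e, hZ, hL⟩ := h
  refine ⟨ι, hι, fun i => Z₀.restrict (Z i), fun i => D i, e, fun i => ⟨(hZ i).1, ?_⟩,
    fun E hE => ?_⟩
  · rw [finrank_restrict]
    refine lt_of_lt_of_le ?_ hmn
    have : 0 < Module.finrank k Z₀.F := Module.finrank_pos
    exact Nat.mul_lt_mul_of_pos_left (hZ i).2 this
  · have hEZ : (E.map (algebraMap k Z₀.F)).IsElliptic := inferInstance
    obtain ⟨h1, h2, h3, h4⟩ := hL (E.map (algebraMap k Z₀.F)) hEZ
    refine ⟨fun V hV W hW => h1 V (fun v => ?_) W (fun i v => ?_), fun r hr => ?_, fun p q => ?_, ?_⟩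
    · have h3 := hV v
      rw [map_restrict] at h3
      exact h3
    · have h3 := hW i v
      rw [map_restrict] at h3
      exact h3
    · obtain ⟨r0, h3, h4⟩ := h2 r (fun i => by
        have h5 := hr i
        rw [map_restrict] at h5
        exact h5)
      refine ⟨r0, ?_, h4⟩
      rw [map_restrict]
      exact h3
    · have hq : ∀ i, ∃ q' : Periods (twist ((E.map (algebraMap k Z₀.F)).map
          (algebraMap Z₀.F (Z i).F)) (D i : (Z i).F)), q'.Om = (q i).Om := fun i =>
        ex_cast (by
          have e := map_restrict Z₀ (Z i) E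
          exact congrArg (fun X => twist X (D i : (Z i).F)) e) (q i)
      choose q' hq' using hq
      have h1 := h3 (p.up Z₀.F) q'
      simp only [hq'] at h1
      exact (om_restrict p Z₀ K).trans h1
    · have h2 : ∀ i, reg (twist (E.map (algebraMap k (Z₀.restrict (Z i)).F)) (D i : (Z i).F)) =
          reg (twist ((E.map (algebraMap k Z₀.F)).map (algebraMap Z₀.F (Z i).F))
            (D i : (Z i).F)) := by
        intro i
        rw [map_restrict]
        rfl
      rw [map_restrict]
      exact h4.trans (Sim.of_eq (Finset.prod_congr rfl fun i _ => congrArg (· ^ e i) (h2 i).symm))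

/-- relations -/
theorem facZ_rel {n : ℕ} {ι : Type} [Fintype ι] (K : Ext k) (Z : ι → Ext k) (c : ι → ℤ)
    {M : Type} [Field M] [NumberField M] [Algebra k M] [IsGalois k M] (f : K.F →ₐ[k] M)
    (g : ∀ i, (Z i).F →ₐ[k] M)
    (h : ∀ σ : Gal(M/k), fx f.fieldRange.fixingSubgroup σ =
      ∑ i, c i * fx (g i).fieldRange.fixingSubgroup σ)
    (hZ : ∀ i, FacZ n (Z i)) : FacZ n K := by
  classical
  choose κ hκ Y D e hY hL using hZ
  refine ⟨Σ i, κ i, inferInstance, fun q => Y q.1 q.2, fun q => D q.1 q.2, fun q => c q.1 * e q.1 q.2,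
    fun q => hY q.1 q.2, fun E hE => ⟨fun V hV W hW => ?_, fun r hr => ?_, fun p q => ?_, ?_⟩⟩
  · have hVZ : ∀ i, ∃ VZ : HeightOneSpectrum (𝓞 (Z i).F) → WeierstrassCurve (𝓞 (Z i).F),
        ∀ w, IsMinAt (E.map (algebraMap k (Z i).F)) w (VZ w) := fun i =>
      exists_minimal _ inferInstance
    choose VZ hVZ using hVZ
    obtain ⟨V0, hV0⟩ := exists_minimal E hE
    obtain ⟨R, hR, hRL⟩ := L_rel_nice (K := k) (ι := Option ι) (fun i => i.elim K Z)
      (fun i => match i with
        | none => f
        | some i => g i) (fun i => i.elim (-1) c) 0 (fun σ => by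
          rw [Fintype.sum_option]
          have h1 := h σ
          change (-1 : ℤ) * fx f.fieldRange.fixingSubgroup σ +
            ∑ i, c i * fx (g i).fieldRange.fixingSubgroup σ = ((0 : ℕ) : ℤ)
          rw [h1]
          push_cast
          ring) E hE V0 hV0
        (fun i => match i with
        | none => V
        | some i => VZ i) (fun i => match i with
        | none => hV
        | some i => hVZ i)
    have hi := fun i => (hL i E hE).1 (VZ i) (hVZ i) (fun j => W ⟨i, j⟩) (fun j v => hW ⟨i, j⟩ v)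
    choose Ri hRi hRiL using hi
    refine ⟨fun s => R s * ∏ i, Ri i s ^ c i,
      hR.mul (Nice.prod Finset.univ fun i _ => (hRi i).zpow _), fun s hs => ?_⟩
    have h2 := hRL s hs
    rw [Fintype.prod_option] at h2
    have hne : LL V s ≠ 0 := LL_ne_zero (inferInstance : (E.map (algebraMap k K.F)).IsElliptic) hV hs
    simp only [pow_zero] at h2
    have h3 : 1 = R s * (LL V s ^ (-1 : ℤ) * ∏ i, LL (VZ i) s ^ c i) := h2
    have h4 : LL V s = R s * ∏ i, LL (VZ i) s ^ c i := by
      rw [zpow_neg_one] at h3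
      field_simp at h3
      linear_combination h3
    rw [h4, Fintype.prod_sigma, mul_assoc, ← Finset.prod_mul_distrib]
    congr 1
    refine Finset.prod_congr rfl fun i _ => ?_
    rw [hRiL i s hs, mul_zpow, ← Finset.prod_zpow]
    congr 1
    refine Finset.prod_congr rfl fun j _ => ?_
    rw [← zpow_mul, mul_comm]
  · have h1 := fun i => (hL i E hE).2.1 (fun j => r ⟨i, j⟩) (fun j => hr ⟨i, j⟩)
    choose ri hri hsum using h1
    obtain ⟨r0, h2, h3⟩ := rank_rel' (L := M) E f (fun i => (Z i).F) g c h ri hri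
    refine ⟨r0, h2, ?_⟩
    rw [h3, Fintype.sum_sigma]
    refine Finset.sum_congr rfl fun i _ => ?_
    rw [hsum i, Finset.mul_sum]
    exact Finset.sum_congr rfl fun j _ => (mul_assoc _ _ _).symm
  · refine (om_perm K f Z g c h p).trans ?_
    rw [Fintype.prod_sigma]
    refine Sim.prod _ fun i _ => ?_
    refine (((hL i E hE).2.2.1 p fun j => q ⟨i, j⟩).zpow (c i)).trans (Sim.of_eq ?_)
    rw [← Finset.prod_zpow]
    refine Finset.prod_congr rfl fun j _ => ?_
    rw [← zpow_mul, mul_comm]
  · refine (reg_perm K f Z g c h hE).trans ?_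
    rw [Fintype.prod_sigma]
    refine Sim.prod _ fun i _ => ?_
    refine (((hL i E hE).2.2.2).zpow (c i)).trans (Sim.of_eq ?_)
    rw [← Finset.prod_zpow]
    refine Finset.prod_congr rfl fun j _ => ?_
    rw [← zpow_mul, mul_comm]

end

section
variable {k : Type} [Field k] [NumberField k] {M : Type} [Field M] [NumberField M] [Algebra k M]
  [IsGalois k M]

open Pool.Agent.H453.MC (Sm Sp ext_restrict)

theorem facZ_sm {n : ℕ} {S : Subgroup Gal(M/k)} (h : Sm n S) :
    FacZ n (⟨IntermediateField.fixedField S⟩ : Ext k) := by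
  have hidx : ∀ T : Subgroup Gal(M/k), Module.finrank k (IntermediateField.fixedField T) =
      T.index := by
    intro T
    rw [IntermediateField.finrank_eq_fixingSubgroup_index,
      IntermediateField.fixingSubgroup_fixedField]
  rcases h with h | ⟨S₀, hle, hrel, hidx₀⟩
  · exact facZ_small _ (by rw [← hidx] at h; exact h)
  · have hle' : IntermediateField.fixedField S₀ ≤ IntermediateField.fixedField S :=
      IntermediateField.fixedField_antitone hle
    let _ : Algebra (IntermediateField.fixedField S₀) (IntermediateField.fixedField S) :=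
      (IntermediateField.inclusion hle').toRingHom.toAlgebra
    have _ : IsScalarTower k (IntermediateField.fixedField S₀) (IntermediateField.fixedField S) :=
      IsScalarTower.of_algebraMap_eq fun x => rfl
    have h1 := Module.finrank_mul_finrank k (IntermediateField.fixedField S₀)
      (IntermediateField.fixedField S)
    rw [hidx, hidx, ← Subgroup.relIndex_mul_index hle, hrel, mul_comm 2] at h1
    have h0 : 0 < S₀.index := Nat.pos_of_ne_zero Subgroup.index_ne_zero_of_finite
    have h2 := Nat.eq_of_mul_eq_mul_left h0 h1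
    have h3 := facZ_quad (k := k) (n := n) ⟨IntermediateField.fixedField S₀⟩
      ⟨IntermediateField.fixedField S⟩ h2 (by
        change Module.finrank k (IntermediateField.fixedField S₀) < n
        rw [hidx]
        exact hidx₀)
    rwa [ext_restrict] at h3

/-- **From permutation characters to `L`-series, ranks, periods and regulators.** -/
theorem facZ_of_span {n : ℕ} (K : Ext k) (f : K.F →ₐ[k] M)
    (h : fx f.fieldRange.fixingSubgroup ∈ Sp Gal(M/k) n) : FacZ n K := by
  obtain ⟨m, c, g, hg⟩ := Submodule.mem_span_set'.1 h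
  choose S hS hfx using fun i => (g i).2
  refine facZ_rel (M := M) K (fun i => (⟨IntermediateField.fixedField (S i)⟩ : Ext k)) c f
    (fun i => IntermediateField.val _) (fun σ => ?_) (fun i => facZ_sm (hS i))
  have h1 : ∀ i, (IntermediateField.val (IntermediateField.fixedField (S i))).fieldRange.fixingSubgroup
      = S i := by
    intro i
    rw [IntermediateField.fieldRange_val, IntermediateField.fixingSubgroup_fixedField]
  rw [← hg, Finset.sum_apply]
  refine Finset.sum_congr rfl fun i _ => ?_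
  rw [Pi.smul_apply, smul_eq_mul, hfx]
  congr 2
  exact (h1 i).symm

end

section fields
variable {k : Type} [Field k] [NumberField k] {K : Type} [Field K] [NumberField K] [Algebra k K]

/-- **No relations.** -/
theorem no_relZ (hK : ¬ FacZ (Module.finrank k K) (⟨K⟩ : Ext k)) : NR k K := by
  intro F M _ _ _ _ h
  have h1 := facZ_of_span (k := F) (M := M) ⟨K⟩ (IsScalarTower.toAlgHom F K M) h
  have h2 := facZ_restrict (k := k) (m := Module.finrank F K) (n := Module.finrank k K) ⟨F⟩ ⟨K⟩ h1
    (Module.finrank_mul_finrank k F K).le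
  rw [Pool.Agent.H453.MC.ext_restrict] at h2
  exact hK h2

end fields

end Pool.Agent.H453.OM
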