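import Pool.Graph.R_pool_sql_team_seeded_3997aac3.Q92.LV.Per
import Pool.Graph.R_seed8.H341R2.NF.TwistEC
import Pool.Agent.H453.OM.Uniq

/-! Period lattices: independence of the choices, base fields, and quadratic twists. -/

set_option autoImplicit false

namespace Pool.Agent.H453.OM

open NumberField ComplexConjugate
open Pool.Agent.Q92.LV (Periods Sim area_ne area_sim)
open Pool.Agent.H341R2.EC (twist)
open scoped Classical

/-! ### scaling -/

/-- the lattice `c L` -/
noncomputable def scl (L : PeriodPair) (c : ℂ) (hc : c ≠ 0) : PeriodPair where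
  ω₁ := c * L.ω₁
  ω₂ := c * L.ω₂
  indep := by
    have h1 := LinearIndependent.pair_iff.1 L.indep
    rw [LinearIndependent.pair_iff]
    intro s t h
    refine h1 s t ?_
    have h2 : c * (s • L.ω₁ + t • L.ω₂) = 0 := by
      rw [← h, Complex.real_smul, Complex.real_smul, Complex.real_smul, Complex.real_smul]
      ring
    exact (mul_eq_zero.1 h2).resolve_left hc

theorem mem_scl {L : PeriodPair} {c : ℂ} {hc : c ≠ 0} {x : ℂ} :
    c * x ∈ (scl L c hc).lattice ↔ x ∈ L.lattice := by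
  rw [PeriodPair.mem_lattice, PeriodPair.mem_lattice]
  refine exists_congr fun m => exists_congr fun n => ?_
  change m * (c * L.ω₁) + n * (c * L.ω₂) = c * x ↔ _
  constructor
  · intro h
    apply mul_left_cancel₀ hc
    rw [← h]
    ring
  · intro h
    rw [← h]
    ring

/-- the bijection of the lattices -/
noncomputable def sclE (L : PeriodPair) (c : ℂ) (hc : c ≠ 0) : L.lattice ≃ (scl L c hc).lattice where
  toFun l := ⟨c * l, mem_scl.2 l.2⟩
  invFun l := ⟨c⁻¹ * l, mem_scl.1 (by rw [mul_inv_cancel_left₀ hc]; exact l.2)⟩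
  left_inv l := Subtype.ext (inv_mul_cancel_left₀ hc _)
  right_inv l := Subtype.ext (mul_inv_cancel_left₀ hc _)

theorem scl_G (L : PeriodPair) (c : ℂ) (hc : c ≠ 0) (n : ℕ) : (scl L c hc).G n = L.G n / c ^ n := by
  rw [PeriodPair.G, PeriodPair.G, ← (sclE L c hc).tsum_eq, ← tsum_div_const]
  refine tsum_congr (fun l => ?_)
  change ((c * (l : ℂ)) ^ n)⁻¹ = _
  rw [mul_pow, mul_inv, div_eq_mul_inv, mul_comm]

theorem scl_g₂ (L : PeriodPair) (c : ℂ) (hc : c ≠ 0) : (scl L c hc).g₂ = L.g₂ / c ^ 4 := by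
  rw [PeriodPair.g₂, PeriodPair.g₂, scl_G, mul_div_assoc]

theorem scl_g₃ (L : PeriodPair) (c : ℂ) (hc : c ≠ 0) : (scl L c hc).g₃ = L.g₃ / c ^ 6 := by
  rw [PeriodPair.g₃, PeriodPair.g₃, scl_G, mul_div_assoc]

theorem scl_area (L : PeriodPair) (c : ℂ) (hc : c ≠ 0) :
    ((scl L c hc).ω₁ * conj (scl L c hc).ω₂).im = Complex.normSq c * (L.ω₁ * conj L.ω₂).im := by
  change ((c * L.ω₁) * conj (c * L.ω₂)).im = _
  have h : (c * L.ω₁) * conj (c * L.ω₂) = (Complex.normSq c : ℂ) * (L.ω₁ * conj L.ω₂) := by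
    rw [map_mul, Complex.normSq_eq_conj_mul_self]
    ring
  rw [h, Complex.im_ofReal_mul]

/-! ### elements of a lattice -/

/-- the imaginary part of the product of two elements -/
theorem im_mul (L : PeriodPair) (m n m' n' : ℤ) :
    ((m * L.ω₁ + n * L.ω₂) * conj (m' * L.ω₁ + n' * L.ω₂ : ℂ)).im =
      ((m * n' - n * m' : ℤ) : ℝ) * (L.ω₁ * conj L.ω₂).im := by
  rw [map_add, map_mul, map_mul]
  simp only [Complex.add_im, Complex.mul_im, Complex.add_re, Complex.mul_re, Complex.conj_re,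
    Complex.conj_im, map_intCast, Complex.intCast_re, Complex.intCast_im]
  push_cast
  ring

theorem area_same {L L' : PeriodPair} (h : L.lattice = L'.lattice) :
    Sim ((L.ω₁ * conj L.ω₂).im) ((L'.ω₁ * conj L'.ω₂).im) := by
  obtain ⟨a, b, h1⟩ := PeriodPair.mem_lattice.1 (h ▸ L.ω₁_mem_lattice)
  obtain ⟨c, d, h2⟩ := PeriodPair.mem_lattice.1 (h ▸ L.ω₂_mem_lattice)
  have h3 : (L.ω₁ * conj L.ω₂).im = ((a * d - b * c : ℤ) : ℝ) * (L'.ω₁ * conj L'.ω₂).im := by
    rw [← im_mul, h1, h2]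
  refine ⟨((a * d - b * c : ℤ) : ℚ), ?_, ?_⟩
  · intro h0
    apply area_ne L
    rw [h3]
    have : ((a * d - b * c : ℤ) : ℝ) = 0 := by exact_mod_cast h0
    rw [this, zero_mul]
  · rw [h3]
    push_cast
    ring

/-- the real elements of a lattice -/
theorem real_sim {L : PeriodPair} {a a' : ℝ} (ha : a ≠ 0) (ha' : a' ≠ 0)
    (h : ((a : ℝ) : ℂ) ∈ L.lattice) (h' : ((a' : ℝ) : ℂ) ∈ L.lattice) : Sim a a' := by
  obtain ⟨m, n, h1⟩ := PeriodPair.mem_lattice.1 h
  obtain ⟨m', n', h2⟩ := PeriodPair.mem_lattice.1 h'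
  have h3 : ((m * n' - n * m' : ℤ) : ℝ) * (L.ω₁ * conj L.ω₂).im = 0 := by
    rw [← im_mul, h1, h2, Complex.conj_ofReal, ← Complex.ofReal_mul, Complex.ofReal_im]
  have h4 : m * n' - n * m' = 0 := by
    exact_mod_cast (mul_eq_zero.1 h3).resolve_right (area_ne L)
  have h4' : (m : ℂ) * n' - n * m' = 0 := by exact_mod_cast h4
  have e1 : (m' : ℝ) * a = m * a' := by
    have : (m' : ℂ) * (a : ℂ) = m * (a' : ℂ) := by
      rw [← h1, ← h2]
      linear_combination (-L.ω₂) * h4'
    exact_mod_cast this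
  have e2 : (n' : ℝ) * a = n * a' := by
    have : (n' : ℂ) * (a : ℂ) = n * (a' : ℂ) := by
      rw [← h1, ← h2]
      linear_combination L.ω₁ * h4'
    exact_mod_cast this
  have key : ∀ x y : ℤ, x ≠ 0 → (x : ℝ) * a = y * a' → Sim a a' := by
    intro x y hx hxy
    have hx' : (x : ℝ) ≠ 0 := by exact_mod_cast hx
    refine ⟨(y : ℚ) / x, ?_, ?_⟩
    · intro h0
      have hx'' : (x : ℚ) ≠ 0 := by exact_mod_cast hx
      have hy : (y : ℚ) = 0 := (div_eq_zero_iff.1 h0).resolve_right hx''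
      have hy' : (y : ℝ) = 0 := by exact_mod_cast hy
      rw [hy', zero_mul] at hxy
      exact ha ((mul_eq_zero.1 hxy).resolve_left hx')
    · push_cast
      rw [div_mul_eq_mul_div, eq_div_iff hx', ← hxy, mul_comm]
  by_cases hm : m' = 0
  · refine key n' n ?_ e2
    rintro hn
    apply ha'
    have : ((a' : ℝ) : ℂ) = 0 := by
      rw [← h2, hm, hn]
      simp
    exact_mod_cast this
  · exact key m' m hm e1

/-- a real and an imaginary element of a lattice -/
theorem real_imag {L : PeriodPair} {a b : ℝ} (ha : a ≠ 0) (hb : b ≠ 0)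
    (h : ((a : ℝ) : ℂ) ∈ L.lattice) (h' : ((b : ℝ) : ℂ) * Complex.I ∈ L.lattice) :
    Sim (a * b) ((L.ω₁ * conj L.ω₂).im) := by
  obtain ⟨m, n, h1⟩ := PeriodPair.mem_lattice.1 h
  obtain ⟨m', n', h2⟩ := PeriodPair.mem_lattice.1 h'
  have h3 : ((m * n' - n * m' : ℤ) : ℝ) * (L.ω₁ * conj L.ω₂).im = -(a * b) := by
    rw [← im_mul, h1, h2, map_mul, Complex.conj_ofReal, Complex.conj_I]
    simp
  refine ⟨-((m * n' - n * m' : ℤ) : ℚ), ?_, ?_⟩
  · intro h0
    have h4 : ((m * n' - n * m' : ℤ) : ℝ) = 0 := by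
      have := neg_eq_zero.1 h0
      exact_mod_cast this
    rw [h4, zero_mul] at h3
    exact mul_ne_zero ha hb (neg_eq_zero.1 h3.symm)
  · have h5 : a * b = -(((m * n' - n * m' : ℤ) : ℝ) * (L.ω₁ * conj L.ω₂).im) := by
      rw [h3, neg_neg]
    rw [h5]
    push_cast
    ring

/-- an element which is not real -/
theorem exists_not_real (L : PeriodPair) : ∃ x ∈ L.lattice, x.im ≠ 0 := by
  by_contra h
  push Not at h
  apply area_ne L
  rw [Complex.mul_im, Complex.conj_re, Complex.conj_im, h _ L.ω₁_mem_lattice, h _ L.ω₂_mem_lattice]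
  ring

/-- an element which is not imaginary -/
theorem exists_not_imag (L : PeriodPair) : ∃ x ∈ L.lattice, x.re ≠ 0 := by
  by_contra h
  push Not at h
  apply area_ne L
  rw [Complex.mul_im, Complex.conj_re, Complex.conj_im, h _ L.ω₁_mem_lattice, h _ L.ω₂_mem_lattice]
  ring

/-- real periods exist -/
theorem exists_real {L : PeriodPair} (h : ∀ x ∈ L.lattice, conj x ∈ L.lattice) :
    ∃ a : ℝ, a ≠ 0 ∧ ((a : ℝ) : ℂ) ∈ L.lattice := by
  obtain ⟨x, hx, hx0⟩ := exists_not_imag L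
  refine ⟨2 * x.re, mul_ne_zero two_ne_zero hx0, ?_⟩
  have h1 := L.lattice.add_mem hx (h x hx)
  rw [Complex.add_conj] at h1
  exact_mod_cast h1

/-- imaginary periods exist -/
theorem exists_imag {L : PeriodPair} (h : ∀ x ∈ L.lattice, conj x ∈ L.lattice) :
    ∃ b : ℝ, b ≠ 0 ∧ ((b : ℝ) : ℂ) * Complex.I ∈ L.lattice := by
  obtain ⟨x, hx, hx0⟩ := exists_not_real L
  refine ⟨2 * x.im, mul_ne_zero two_ne_zero hx0, ?_⟩
  have h1 := L.lattice.sub_mem hx (h x hx)
  rw [Complex.sub_conj] at h1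
  exact_mod_cast h1

/-! ### independence of the choices -/

section
variable {K : Type} [Field K] [NumberField K]

theorem at_sim {E : WeierstrassCurve K} (p p' : Periods E) (v : InfinitePlace K) :
    Sim (p.at v) (p'.at v) := by
  have hlat : (p.pair v.embedding).lattice = (p'.pair v.embedding).lattice :=
    lattice_eq (by rw [p.g₂_eq, p'.g₂_eq]) (by rw [p.g₃_eq, p'.g₃_eq])
  unfold Periods.at Pool.Agent.Q92.LV.atF
  by_cases hv : v.IsReal
  · rw [if_pos hv, if_pos hv]
    have hr := InfinitePlace.isReal_iff.1 hv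
    exact real_sim (p.re_ne _ hr) (p'.re_ne _ hr) (p.re_mem _ hr) (hlat ▸ p'.re_mem _ hr)
  · rw [if_neg hv, if_neg hv]
    exact area_same hlat

/-- **The product of the periods does not depend on the choices.** -/
theorem om_indep {E : WeierstrassCurve K} (p p' : Periods E) : Sim p.Om p'.Om :=
  (Sim.refl _).mul (Sim.prod _ fun v _ => at_sim p p' v)

theorem om_indep' {E E' : WeierstrassCurve K} (h : E = E') (p : Periods E) (p' : Periods E') :
    Sim p.Om p'.Om := by
  subst h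
  exact om_indep p p'

/-- **Descent of the period lattices.** -/
theorem exists_base {k : Type} [Field k] [NumberField k] [Algebra k K] {E : WeierstrassCurve k}
    (P : Periods (E.map (algebraMap k K))) : Nonempty (Periods E) := by
  have hext : ∀ ν : k →+* ℂ, ∃ μ : K →+* ℂ, μ.comp (algebraMap k K) = ν := by
    intro ν
    let _ : Algebra k ℂ := ν.toAlgebra
    have hfd : FiniteDimensional k K := by
      have : IsScalarTower ℚ k K := inferInstance
      exact FiniteDimensional.right ℚ k K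
    let i : K →ₐ[k] ℂ := IsAlgClosed.lift
    exact ⟨i.toRingHom, RingHom.ext fun x => i.commutes x⟩
  choose μ hμ using hext
  have e2 : ∀ ν, (P.pair (μ ν)).g₂ = ν E.c₄ / 12 := by
    intro ν
    rw [P.g₂_eq, WeierstrassCurve.map_c₄, ← RingHom.comp_apply, hμ]
  have e3 : ∀ ν, (P.pair (μ ν)).g₃ = ν E.c₆ / 216 := by
    intro ν
    rw [P.g₃_eq, WeierstrassCurve.map_c₆, ← RingHom.comp_apply, hμ]
  have hconj : ∀ ν : k →+* ℂ, ∀ x ∈ (P.pair (μ ν)).lattice,
      conj x ∈ (P.pair (μ (ComplexEmbedding.conjugate ν))).lattice := by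
    intro ν x hx
    have h1 := P.conj_mem _ x hx
    have h2 : (P.pair (ComplexEmbedding.conjugate (μ ν))).lattice =
        (P.pair (μ (ComplexEmbedding.conjugate ν))).lattice := by
      have h3 : (ComplexEmbedding.conjugate (μ ν)).comp (algebraMap k K) =
          ComplexEmbedding.conjugate ν := by
        ext x
        change conj ((μ ν) (algebraMap k K x)) = conj (ν x)
        rw [← RingHom.comp_apply (μ ν) (algebraMap k K), hμ]
      refine lattice_eq ?_ ?_
      · rw [e2, P.g₂_eq, WeierstrassCurve.map_c₄, ← RingHom.comp_apply, h3]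
      · rw [e3, P.g₃_eq, WeierstrassCurve.map_c₆, ← RingHom.comp_apply, h3]
    rwa [h2] at h1
  have hre : ∀ ν : k →+* ℂ, ∃ a : ℝ, ComplexEmbedding.IsReal ν →
      (a ≠ 0 ∧ ((a : ℝ) : ℂ) ∈ (P.pair (μ ν)).lattice) := by
    intro ν
    by_cases hν : ComplexEmbedding.IsReal ν
    · obtain ⟨a, h1, h2⟩ := exists_real (L := P.pair (μ ν)) fun x hx => by
        have h4 := hconj ν x hx
        rwa [ComplexEmbedding.isReal_iff.1 hν] at h4
      exact ⟨a, fun _ => ⟨h1, h2⟩⟩
    · exact ⟨0, fun h => absurd h hν⟩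
  choose a ha using hre
  exact ⟨⟨fun ν => P.pair (μ ν), e2, e3, hconj, a, fun ν hν => (ha ν hν).1,
    fun ν hν => (ha ν hν).2⟩⟩

end

end Pool.Agent.H453.OM
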