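import Pool.Agent.H453.OM.Quad
import Pool.Agent.H453.OM.Can
import Pool.Graph.R_pool_sql_team_seeded_3997aac3.Q5.RG.Gal
import Pool.Agent.H453.EN.FacB

/-! The periods in a relation between permutation characters of a finite Galois group. -/

set_option autoImplicit false
set_option linter.unusedSectionVars false

namespace Pool.Agent.H453.OM

open NumberField
open Pool.Agent.Q92.LV (Periods Sim om_rel om_ne reg reg_spec regE_relation)
open Pool.Agent.Q5.RG (stabE fxc_eq mem_stabE)
open Pool.Agent.W353.NF (fixn)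
open Pool.Agent.W401.Cheb (GK)
open Pool.Agent.R433.MD (fx Ext)
open scoped Classical

/-- fixed points of a quotient group -/
theorem fx_comap {Γ G : Type} [Group Γ] [Group G] (φ : Γ →* G) (hφ : Function.Surjective φ)
    (H : Subgroup G) (σ : Γ) :
    Nat.card {c : Γ ⧸ H.comap φ // σ • c = c} = Nat.card {c : G ⧸ H // φ σ • c = c} := by
  let q : Γ ⧸ H.comap φ → G ⧸ H := Quotient.map' φ (by
    intro a b hab
    rw [QuotientGroup.leftRel_apply] at hab ⊢
    rw [← map_inv, ← map_mul]
    exact hab)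
  have hq : Function.Bijective q := by
    constructor
    · intro x y h
      obtain ⟨a, rfl⟩ := QuotientGroup.mk_surjective x
      obtain ⟨b, rfl⟩ := QuotientGroup.mk_surjective y
      have h1 : ((φ a : G) : G ⧸ H) = ((φ b : G) : G ⧸ H) := h
      rw [QuotientGroup.eq] at h1 ⊢
      rw [Subgroup.mem_comap, map_mul, map_inv]
      exact h1
    · intro y
      obtain ⟨b, rfl⟩ := QuotientGroup.mk_surjective y
      obtain ⟨a, rfl⟩ := hφ b
      exact ⟨(a : Γ ⧸ H.comap φ), rfl⟩
  refine Nat.card_congr (Equiv.subtypeEquiv (Equiv.ofBijective q hq) fun x => ?_)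
  obtain ⟨a, rfl⟩ := QuotientGroup.mk_surjective x
  change _ ↔ φ σ • ((φ a : G) : G ⧸ H) = ((φ a : G) : G ⧸ H)
  have h1 : φ σ • ((φ a : G) : G ⧸ H) = q (σ • (a : Γ ⧸ H.comap φ)) := by
    change ((φ σ * φ a : G) : G ⧸ H) = ((φ (σ * a) : G) : G ⧸ H)
    rw [map_mul]
  have h2 : ((φ a : G) : G ⧸ H) = q (a : Γ ⧸ H.comap φ) := rfl
  rw [h1, h2]
  exact hq.1.eq_iff.symm

section
variable {k : Type} [Field k] [NumberField k] {M : Type} [Field M] [NumberField M] [Algebra k M]
  [IsGalois k M]

/-- **Fixed points of Galois groups.** -/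
theorem exists_res : ∃ φ : GK k →* Gal(M/k), Function.Surjective φ ∧
    ∀ (F : Type) [Field F] [Algebra k F] (f : F →ₐ[k] M) (σ : GK k),
      (fixn k F σ : ℤ) = fx f.fieldRange.fixingSubgroup (φ σ) := by
  have hfd : FiniteDimensional k M := by
    have : IsScalarTower ℚ k M := inferInstance
    exact FiniteDimensional.right ℚ k M
  let j : M →ₐ[k] AlgebraicClosure k := IsAlgClosed.lift
  let _ : Algebra M (AlgebraicClosure k) := j.toRingHom.toAlgebra
  have : IsScalarTower k M (AlgebraicClosure k) :=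
    IsScalarTower.of_algebraMap_eq fun x => (j.commutes x).symm
  refine ⟨AlgEquiv.restrictNormalHom M, AlgEquiv.restrictNormalHom_surjective _, ?_⟩
  intro F _ _ f σ
  rw [← fxc_eq (j.comp f) σ]
  have h1 : stabE (j.comp f) =
      f.fieldRange.fixingSubgroup.comap (AlgEquiv.restrictNormalHom M) := by
    ext τ
    rw [mem_stabE, Subgroup.mem_comap, IntermediateField.mem_fixingSubgroup_iff]
    have h2 : ∀ x : M, j ((AlgEquiv.restrictNormalHom M τ) x) = τ (j x) := fun x =>
      AlgEquiv.restrictNormal_commutes τ M x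
    constructor
    · rintro h _ ⟨x, rfl⟩
      have h3 : j ((AlgEquiv.restrictNormalHom M τ) (f x)) = j (f x) := (h2 (f x)).trans (h x)
      exact j.injective h3
    · intro h x
      change τ (j (f x)) = j (f x)
      rw [← h2, h (f x) ⟨x, rfl⟩]
  rw [h1]
  unfold fx
  congr 1
  exact fx_comap _ (AlgEquiv.restrictNormalHom_surjective _) _ σ

/-- **The periods in a relation.** -/
theorem om_perm {ι : Type} [Fintype ι] (K : Ext k) (f : K.F →ₐ[k] M) (Z : ι → Ext k)
    (g : ∀ i, (Z i).F →ₐ[k] M) (c : ι → ℤ)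
    (h : ∀ σ : Gal(M/k), fx f.fieldRange.fixingSubgroup σ =
      ∑ i, c i * fx (g i).fieldRange.fixingSubgroup σ) {E : WeierstrassCurve k} (p : Periods E) :
    Sim (p.up K.F).Om (∏ i, (p.up (Z i).F).Om ^ c i) := by
  obtain ⟨φ, -, hφ⟩ := exists_res (k := k) (M := M)
  have h1 := om_rel (X := fun o : Option ι => (match o with
    | none => ⟨K.F⟩
    | some i => ⟨(Z i).F⟩ : Pool.Agent.Q5.BR.Ext k)) (n := fun o => match o with
    | none => -1
    | some i => c i) (fun σ => by
      rw [Fintype.sum_option]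
      change (-1 : ℤ) * (fixn k K.F σ : ℤ) + ∑ i, c i * (fixn k (Z i).F σ : ℤ) = 0
      rw [hφ K.F f σ, h]
      simp only [fun i => hφ (Z i).F (g i) σ]
      ring) p
  rw [Fintype.prod_option] at h1
  change Sim ((p.up K.F).Om ^ (-1 : ℤ) * ∏ i, (p.up (Z i).F).Om ^ c i) 1 at h1
  have h2 := (Sim.refl (p.up K.F).Om).mul h1
  rw [← mul_assoc, zpow_neg_one, mul_inv_cancel₀ (om_ne _), one_mul, mul_one] at h2
  exact h2.symm

/-- **The regulators in a relation.** -/
theorem reg_perm {ι : Type} [Fintype ι] (K : Ext k) (f : K.F →ₐ[k] M) (Z : ι → Ext k)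
    (g : ∀ i, (Z i).F →ₐ[k] M) (c : ι → ℤ)
    (h : ∀ σ : Gal(M/k), fx f.fieldRange.fixingSubgroup σ =
      ∑ i, c i * fx (g i).fieldRange.fixingSubgroup σ) {E : WeierstrassCurve k}
    (hE : E.IsElliptic) :
    Sim (reg (E.map (algebraMap k K.F))) (∏ i, (reg (E.map (algebraMap k (Z i).F))) ^ c i) := by
  obtain ⟨φ, -, hφ⟩ := exists_res (k := k) (M := M)
  have hne : ∀ Y : Ext k, reg (E.map (algebraMap k Y.F)) ≠ 0 := fun Y =>
    (reg_spec (W := E.map (algebraMap k Y.F)) inferInstance).ne
  have h1 := regE_relation (X := fun o : Option ι => (match o with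
    | none => ⟨K.F⟩
    | some i => ⟨(Z i).F⟩ : Pool.Agent.Q5.BR.Ext k)) (n := fun o => match o with
    | none => -1
    | some i => c i) (fun σ => by
      rw [Fintype.sum_option]
      change (-1 : ℤ) * (fixn k K.F σ : ℤ) + ∑ i, c i * (fixn k (Z i).F σ : ℤ) = 0
      rw [hφ K.F f σ, h]
      simp only [fun i => hφ (Z i).F (g i) σ]
      ring) hE (c := fun o => match o with
    | none => reg (E.map (algebraMap k K.F))
    | some i => reg (E.map (algebraMap k (Z i).F))) (by
      rintro (_ | i)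
      · exact reg_spec (W := E.map (algebraMap k K.F)) inferInstance
      · exact reg_spec (W := E.map (algebraMap k (Z i).F)) inferInstance)
  obtain ⟨q, hq, h1⟩ := h1
  rw [Fintype.prod_option] at h1
  change reg (E.map (algebraMap k K.F)) ^ (-1 : ℤ) *
    ∏ i, (reg (E.map (algebraMap k (Z i).F))) ^ c i = (q : ℝ) at h1
  rw [zpow_neg_one] at h1
  refine Sim.symm ⟨q, hq, ?_⟩
  rw [← h1, mul_comm, mul_inv_cancel_left₀ (hne K)]

end

end Pool.Agent.H453.OM
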