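import Pool.Agent.H453.OM.Lat
import Pool.Agent.H453.OM.Disc

/-! The periods of quadratic twists and the periods over quadratic extensions. -/

set_option autoImplicit false
set_option linter.unusedSectionVars false

namespace Pool.Agent.H453.OM

open NumberField ComplexConjugate
open Pool.Agent.Q92.LV (Periods Sim area_ne area_sim prod_places rr cc rr_cc rr_complex isReal_comap
  embedding_comap comap_eq_mk atF)
open Pool.Agent.H341R2.EC (twist)
open scoped Classical

section
variable {K : Type} [Field K] [NumberField K]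

/-- a square root at an embedding -/
noncomputable def rt (d : K) (ν : K →+* ℂ) : ℂ := (ν d) ^ (((2 : ℕ) : ℂ)⁻¹)

theorem rt_sq (d : K) (ν : K →+* ℂ) : rt d ν ^ 2 = ν d := Complex.cpow_nat_inv_pow _ two_ne_zero

theorem rt_ne {d : K} (hd : d ≠ 0) (ν : K →+* ℂ) : rt d ν ≠ 0 := by
  intro h
  have h1 := rt_sq d ν
  rw [h, zero_pow two_ne_zero] at h1
  exact hd ((map_eq_zero ν).1 h1.symm)

theorem six_ne {d : K} (hd : d ≠ 0) (ν : K →+* ℂ) : (6 * rt d ν)⁻¹ ≠ 0 :=
  inv_ne_zero (mul_ne_zero (by norm_num) (rt_ne hd ν))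

theorem twist_c₄ (E : WeierstrassCurve K) (d : K) : (twist E d).c₄ = 1296 * d ^ 2 * E.c₄ := by
  simp only [WeierstrassCurve.c₄, WeierstrassCurve.b₂, WeierstrassCurve.b₄, twist]
  ring

theorem twist_c₆ (E : WeierstrassCurve K) (d : K) : (twist E d).c₆ = 46656 * d ^ 3 * E.c₆ := by
  simp only [WeierstrassCurve.c₆, WeierstrassCurve.b₂, WeierstrassCurve.b₄, WeierstrassCurve.b₆,
    twist, WeierstrassCurve.c₄]
  ring

/-- the area -/
noncomputable def ar (L : PeriodPair) : ℝ := (L.ω₁ * conj L.ω₂).im

/-- the value -/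
noncomputable def tgt {E : WeierstrassCurve K} (p : Periods E) (d : K) (u : InfinitePlace K) : ℝ :=
  if u.IsReal then
    if 0 < (u.embedding d).re then p.re u.embedding ^ 2 else ar (p.pair u.embedding)
  else ar (p.pair u.embedding) ^ 2

/-- **The periods of the quadratic twist.** -/
theorem exists_tw {E : WeierstrassCurve K} (p : Periods E) {d : K} (hd : d ≠ 0) :
    ∃ q : Periods (twist E d), ∀ u : InfinitePlace K,
      Sim (p.at u * q.at u * Real.sqrt (u d ^ u.mult)) (tgt p d u) := by
  let pair : (K →+* ℂ) → PeriodPair := fun ν => scl (p.pair ν) (6 * rt d ν)⁻¹ (six_ne hd ν)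
  have hpair : ∀ ν, pair ν = scl (p.pair ν) (6 * rt d ν)⁻¹ (six_ne hd ν) := fun ν => rfl
  have e2 : ∀ ν, (pair ν).g₂ = ν (twist E d).c₄ / 12 := by
    intro ν
    rw [hpair, scl_g₂, p.g₂_eq, twist_c₄, inv_pow, div_inv_eq_mul, mul_pow]
    have h1 : rt d ν ^ 4 = (ν d) ^ 2 := by
      rw [← rt_sq]
      ring
    rw [h1, map_mul, map_mul, map_pow]
    simp only [map_ofNat]
    ring
  have e3 : ∀ ν, (pair ν).g₃ = ν (twist E d).c₆ / 216 := by
    intro ν
    rw [hpair, scl_g₃, p.g₃_eq, twist_c₆, inv_pow, div_inv_eq_mul, mul_pow]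
    have h1 : rt d ν ^ 6 = (ν d) ^ 3 := by
      rw [← rt_sq]
      ring
    rw [h1, map_mul, map_mul, map_pow]
    simp only [map_ofNat]
    ring
  have hconj : ∀ ν : K →+* ℂ, ∀ x ∈ (pair ν).lattice,
      conj x ∈ (pair (ComplexEmbedding.conjugate ν)).lattice := by
    intro ν x hx
    have h1 : (rt d (ComplexEmbedding.conjugate ν)) ^ 2 = (conj (rt d ν)) ^ 2 := by
      rw [rt_sq, ← map_pow, rt_sq]
      rfl
    have hx1 : (6 * rt d ν) * x ∈ (p.pair ν).lattice := by
      refine (mem_scl (hc := six_ne hd ν)).1 ?_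
      rw [inv_mul_cancel_left₀ (mul_ne_zero (by norm_num) (rt_ne hd ν))]
      exact hx
    have hx2 := p.conj_mem ν _ hx1
    have h6 : 6 * rt d (ComplexEmbedding.conjugate ν) ≠ 0 :=
      mul_ne_zero (by norm_num) (rt_ne hd _)
    have h3 : ∀ y : ℂ, y ∈ (p.pair (ComplexEmbedding.conjugate ν)).lattice →
        (6 * rt d (ComplexEmbedding.conjugate ν))⁻¹ * y ∈
          (pair (ComplexEmbedding.conjugate ν)).lattice := fun y hy => mem_scl.2 hy
    rcases sq_eq_sq_iff_eq_or_eq_neg.1 h1 with h | h
    · have h4 := h3 _ hx2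
      rw [map_mul, map_mul, ← h, map_ofNat, inv_mul_cancel_left₀ h6] at h4
      exact h4
    · have h4 := h3 _ (Submodule.neg_mem _ hx2)
      have h5 : -conj (6 * rt d ν * x) =
          (6 * rt d (ComplexEmbedding.conjugate ν)) * conj x := by
        rw [map_mul, map_mul, h, map_ofNat]
        ring
      rw [h5, inv_mul_cancel_left₀ h6] at h4
      exact h4
  have hre : ∀ ν : K →+* ℂ, ∃ a : ℝ, ComplexEmbedding.IsReal ν →
      (a ≠ 0 ∧ ((a : ℝ) : ℂ) ∈ (pair ν).lattice) := by
    intro ν
    by_cases hν : ComplexEmbedding.IsReal ν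
    · obtain ⟨a, h1, h2⟩ := exists_real (L := pair ν) fun x hx => by
        have h4 := hconj ν x hx
        rwa [ComplexEmbedding.isReal_iff.1 hν] at h4
      exact ⟨a, fun _ => ⟨h1, h2⟩⟩
    · exact ⟨0, fun h => absurd h hν⟩
  choose a ha using hre
  refine ⟨⟨pair, e2, e3, hconj, a, fun ν hν => (ha ν hν).1, fun ν hν => (ha ν hν).2⟩, fun u => ?_⟩
  have hud : u d = ‖u.embedding d‖ := (InfinitePlace.norm_embedding_eq u d).symm
  have hν0 : u.embedding d ≠ 0 := (map_ne_zero _).2 hd
  have hpos : 0 < u d := by
    rw [hud]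
    exact norm_pos_iff.2 hν0
  unfold Periods.at atF tgt
  by_cases hu : u.IsReal
  · have hν := InfinitePlace.isReal_iff.1 hu
    rw [if_pos hu, if_pos hu, if_pos hu, hu.mult_eq_one, pow_one]
    obtain ⟨ha0, ham⟩ := ha _ hν
    have hx1 : (6 * rt d u.embedding) * (a u.embedding : ℂ) ∈ (p.pair u.embedding).lattice := by
      refine (mem_scl (hc := six_ne hd u.embedding)).1 ?_
      rw [inv_mul_cancel_left₀ (mul_ne_zero (by norm_num) (rt_ne hd _))]
      exact ham
    have hdre : u.embedding d = ((u.embedding d).re : ℂ) := by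
      apply Complex.ext
      · simp
      · rw [Complex.ofReal_im]
        have h1 : conj (u.embedding d) = u.embedding d := DFunLike.congr_fun hν d
        exact Complex.conj_eq_iff_im.1 h1
    have hs0 : Real.sqrt (u d) ≠ 0 := (Real.sqrt_pos.2 hpos).ne'
    by_cases h0 : 0 < (u.embedding d).re
    · rw [if_pos h0]
      have hval : u d = (u.embedding d).re := by
        rw [hud, hdre, Complex.norm_real, Real.norm_eq_abs, abs_of_pos h0, Complex.ofReal_re]
      have h1 : rt d u.embedding ^ 2 = ((Real.sqrt (u d) : ℝ) : ℂ) ^ 2 := by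
        rw [rt_sq, ← Complex.ofReal_pow, Real.sq_sqrt hpos.le, hval]
        exact hdre
      have h2 : ((6 * a u.embedding * Real.sqrt (u d) : ℝ) : ℂ) ∈ (p.pair u.embedding).lattice := by
        rcases sq_eq_sq_iff_eq_or_eq_neg.1 h1 with h | h
        · rw [h] at hx1
          have e : ((6 * a u.embedding * Real.sqrt (u d) : ℝ) : ℂ) =
              6 * (Real.sqrt (u d) : ℂ) * (a u.embedding : ℂ) := by
            push_cast
            ring
          rw [e]
          exact hx1
        · rw [h] at hx1
          have e : ((6 * a u.embedding * Real.sqrt (u d) : ℝ) : ℂ) =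
              -(6 * -(Real.sqrt (u d) : ℂ) * (a u.embedding : ℂ)) := by
            push_cast
            ring
          rw [e]
          exact Submodule.neg_mem _ hx1
      have h3 := real_sim (mul_ne_zero (mul_ne_zero (by norm_num) ha0) hs0) (p.re_ne _ hν) h2
        (p.re_mem _ hν)
      obtain ⟨r, hr, h4⟩ := h3
      refine ⟨r / 6, div_ne_zero hr (by norm_num), ?_⟩
      have h5 : a u.embedding * Real.sqrt (u d) = r / 6 * p.re u.embedding := by
        linear_combination (1 / 6 : ℝ) * h4
      push_cast
      linear_combination (p.re u.embedding) * h5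
    · rw [if_neg h0]
      have h0' : (u.embedding d).re < 0 := by
        rcases lt_trichotomy 0 (u.embedding d).re with h | h | h
        · exact absurd h h0
        · exfalso
          rw [← h, Complex.ofReal_zero] at hdre
          exact hν0 hdre
        · exact h
      have hval : u d = -(u.embedding d).re := by
        rw [hud, hdre, Complex.norm_real, Real.norm_eq_abs, abs_of_neg h0', Complex.ofReal_re]
      have h1 : rt d u.embedding ^ 2 = (((Real.sqrt (u d) : ℝ) : ℂ) * Complex.I) ^ 2 := by
        rw [rt_sq, mul_pow, Complex.I_sq, ← Complex.ofReal_pow, Real.sq_sqrt hpos.le, hval]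
        rw [Complex.ofReal_neg, neg_mul_neg, mul_one]
        exact hdre
      have h2 : ((6 * a u.embedding * Real.sqrt (u d) : ℝ) : ℂ) * Complex.I ∈
          (p.pair u.embedding).lattice := by
        rcases sq_eq_sq_iff_eq_or_eq_neg.1 h1 with h | h
        · rw [h] at hx1
          have e : ((6 * a u.embedding * Real.sqrt (u d) : ℝ) : ℂ) * Complex.I =
              6 * ((Real.sqrt (u d) : ℂ) * Complex.I) * (a u.embedding : ℂ) := by
            push_cast
            ring
          rw [e]
          exact hx1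
        · rw [h] at hx1
          have e : ((6 * a u.embedding * Real.sqrt (u d) : ℝ) : ℂ) * Complex.I =
              -(6 * -((Real.sqrt (u d) : ℂ) * Complex.I) * (a u.embedding : ℂ)) := by
            push_cast
            ring
          rw [e]
          exact Submodule.neg_mem _ hx1
      obtain ⟨r, hr, h4⟩ := real_imag (p.re_ne _ hν)
        (mul_ne_zero (mul_ne_zero (by norm_num) ha0) hs0) (p.re_mem _ hν) h2
      refine ⟨r / 6, div_ne_zero hr (by norm_num), ?_⟩
      unfold ar
      push_cast
      linear_combination (1 / 6 : ℝ) * h4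
  · have huc := InfinitePlace.not_isReal_iff_isComplex.1 hu
    rw [if_neg hu, if_neg hu, if_neg hu, huc.mult_eq_two, Real.sqrt_sq hpos.le]
    have h1 := scl_area (p.pair u.embedding) (6 * rt d u.embedding)⁻¹ (six_ne hd u.embedding)
    have h2 : Complex.normSq (6 * rt d u.embedding)⁻¹ = (36 * u d)⁻¹ := by
      rw [map_inv₀, map_mul]
      congr 1
      have e1 : Complex.normSq (rt d u.embedding) = u d := by
        rw [Complex.normSq_eq_norm_sq, ← norm_pow, rt_sq, hud]
      rw [e1]
      congr 1
      rw [Complex.normSq_ofNat]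
      norm_num
    rw [h2] at h1
    refine ⟨1 / 36, by norm_num, ?_⟩
    change (((p.pair u.embedding).ω₁ * conj (p.pair u.embedding).ω₂).im) *
      (((scl (p.pair u.embedding) (6 * rt d u.embedding)⁻¹ (six_ne hd u.embedding)).ω₁ *
        conj (scl (p.pair u.embedding) (6 * rt d u.embedding)⁻¹ (six_ne hd u.embedding)).ω₂).im) *
        u d = _
    rw [h1]
    unfold ar
    push_cast
    field_simp

variable {Y : Type} [Field Y] [NumberField Y] [Algebra K Y]

/-- the places above a place -/
theorem places {d : K} (hd : d ≠ 0) {α : Y} (hα : α ^ 2 = algebraMap K Y d)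
    (hαF : ∀ x : K, algebraMap K Y x ≠ α)
    (hgen : ∀ z : Y, ∃ x y : K, z = algebraMap K Y x + algebraMap K Y y * α)
    {E : WeierstrassCurve K} (p : Periods E) (u : InfinitePlace K) :
    (if u.IsReal then p.re u.embedding else 1) ^ (rr Y u : ℤ) * ar (p.pair u.embedding) ^ (cc Y u : ℤ) =
      tgt p d u := by
  have hfr := finrank_two hαF hgen
  have h1 := rr_cc Y u
  rw [hfr] at h1
  unfold tgt
  by_cases hu : u.IsReal
  · rw [if_pos hu, if_pos hu]
    rw [hu.mult_eq_one] at h1
    have hν := InfinitePlace.isReal_iff.1 hu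
    have hdre : u.embedding d = ((u.embedding d).re : ℂ) := by
      apply Complex.ext
      · simp
      · rw [Complex.ofReal_im]
        have h1 : conj (u.embedding d) = u.embedding d := DFunLike.congr_fun hν d
        exact Complex.conj_eq_iff_im.1 h1
    have hν0 : u.embedding d ≠ 0 := (map_ne_zero _).2 hd
    -- the embedding of `α`
    have hemb : ∀ v : InfinitePlace Y, v.comap (algebraMap K Y) = u →
        v.embedding.comp (algebraMap K Y) = u.embedding := by
      intro v hv
      rcases embedding_comap hv with h | h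
      · exact h
      · rw [h]
        exact hν
    have hval : ∀ v : InfinitePlace Y, v.comap (algebraMap K Y) = u →
        v.embedding α ^ 2 = ((u.embedding d).re : ℂ) := by
      intro v hv
      rw [← map_pow, hα, ← RingHom.comp_apply, hemb v hv]
      exact hdre
    by_cases h0 : 0 < (u.embedding d).re
    · rw [if_pos h0]
      have hcc : cc Y u = 0 := by
        unfold cc
        rw [Finset.card_eq_zero, Finset.filter_eq_empty_iff]
        rintro v - ⟨hv, hvc⟩
        apply InfinitePlace.not_isReal_iff_isComplex.2 hvc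
        rw [InfinitePlace.isReal_iff]
        have h2 : conj (v.embedding α) = v.embedding α := by
          have h3 : v.embedding α ^ 2 = ((Real.sqrt (u.embedding d).re : ℝ) : ℂ) ^ 2 := by
            rw [hval v hv, ← Complex.ofReal_pow, Real.sq_sqrt h0.le]
          rcases sq_eq_sq_iff_eq_or_eq_neg.1 h3 with h | h
          · rw [h, Complex.conj_ofReal]
          · rw [h, map_neg, Complex.conj_ofReal]
        ext z
        obtain ⟨x, y, rfl⟩ := hgen z
        have h4 : ∀ x : K, v.embedding (algebraMap K Y x) = u.embedding x := fun x => by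
          rw [← RingHom.comp_apply, hemb v hv]
        change conj (v.embedding _) = v.embedding _
        rw [map_add, map_mul, h4, h4, map_add, map_mul, h2]
        have h5 : ∀ x : K, conj (u.embedding x) = u.embedding x := fun x => DFunLike.congr_fun hν x
        rw [h5, h5]
      rw [hcc] at h1 ⊢
      have hrr : rr Y u = 2 := by omega
      rw [hrr]
      simp
    · rw [if_neg h0]
      have h0' : (u.embedding d).re < 0 := by
        rcases lt_trichotomy 0 (u.embedding d).re with h | h | h
        · exact absurd h h0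
        · exfalso
          rw [← h, Complex.ofReal_zero] at hdre
          exact hν0 hdre
        · exact h
      have hrr : rr Y u = 0 := by
        unfold rr
        rw [Finset.card_eq_zero, Finset.filter_eq_empty_iff]
        rintro v - ⟨hv, hvr⟩
        have h2 : conj (v.embedding α) = v.embedding α :=
          DFunLike.congr_fun (InfinitePlace.isReal_iff.1 hvr) α
        have h3 := Complex.conj_eq_iff_real.1 h2
        obtain ⟨r, hr⟩ := h3
        have h4 := hval v hv
        rw [hr, ← Complex.ofReal_pow] at h4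
        have h5 : r ^ 2 = (u.embedding d).re := Complex.ofReal_injective h4
        nlinarith [sq_nonneg r]
      rw [hrr] at h1 ⊢
      have hcc : cc Y u = 1 := by omega
      rw [hcc]
      simp
  · rw [if_neg hu, if_neg hu]
    have huc := InfinitePlace.not_isReal_iff_isComplex.1 hu
    rw [huc.mult_eq_two, rr_complex Y huc] at h1
    have hcc : cc Y u = 2 := by omega
    rw [rr_complex Y huc, hcc]
    simp

/-- **The periods over a quadratic extension.** -/
theorem om_quad {d : K} (hd : d ≠ 0) {α : Y} (hα : α ^ 2 = algebraMap K Y d)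
    (hαF : ∀ x : K, algebraMap K Y x ≠ α)
    (hgen : ∀ z : Y, ∃ x y : K, z = algebraMap K Y x + algebraMap K Y y * α)
    {E : WeierstrassCurve K} (p : Periods E) (q : Periods (twist E d)) :
    Sim (p.up Y).Om (p.Om * q.Om) := by
  obtain ⟨q', hq'⟩ := exists_tw p hd
  refine Sim.trans ?_ ((Sim.refl p.Om).mul (om_indep q' q))
  -- the places
  have h1 : Sim (∏ v, (p.up Y).at v)
      (∏ u, ((if u.IsReal then p.re u.embedding else 1) ^ (rr Y u : ℤ) *
        ar (p.pair u.embedding) ^ (cc Y u : ℤ))) := by
    refine prod_places (a := fun u => if u.IsReal then p.re u.embedding else 1)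
      (b := fun u => ar (p.pair u.embedding)) ?_ ?_
    · intro v hv
      have h2 := isReal_comap (K := K) hv
      unfold Periods.at atF
      rw [if_pos hv, if_pos h2]
      refine Sim.of_eq ?_
      change p.re _ = p.re _
      rcases embedding_comap (v := v) (u := v.comap (algebraMap K Y)) rfl with h3 | h3
      · rw [h3]
      · rw [h3]
        congr 1
        exact InfinitePlace.isReal_iff.1 h2
    · intro v hv
      unfold Periods.at atF
      rw [if_neg (InfinitePlace.not_isReal_iff_isComplex.2 hv)]
      change Sim (ar (p.pair (v.embedding.comp (algebraMap K Y)))) _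
      rcases embedding_comap (v := v) (u := v.comap (algebraMap K Y)) rfl with h3 | h3
      · rw [h3]
        exact Sim.refl _
      · rw [h3]
        exact (area_sim (p.conj_mem _)).symm
  simp only [places hd hα hαF hgen p] at h1
  have h2 : Sim (∏ u, p.at u * q'.at u * Real.sqrt (u d ^ u.mult)) (∏ u, tgt p d u) :=
    Sim.prod _ fun u _ => hq' u
  -- the norm
  have hn0 : Algebra.norm ℚ d ≠ 0 := Algebra.norm_ne_zero_iff.2 hd
  set N : ℝ := |((Algebra.norm ℚ d : ℚ) : ℝ)| with hN
  have hNpos : 0 < N := by
    rw [hN]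
    exact abs_pos.2 (by exact_mod_cast hn0)
  have h3 : ∏ u : InfinitePlace K, Real.sqrt (u d ^ u.mult) = Real.sqrt N := by
    rw [← Real.sqrt_prod _ fun u _ => pow_nonneg (apply_nonneg u d) _,
      InfinitePlace.prod_eq_abs_norm, hN]
    norm_cast
  rw [Finset.prod_mul_distrib, Finset.prod_mul_distrib, h3] at h2
  -- the discriminants
  obtain ⟨r, hr, hdisc⟩ := discr_quad hd hα hαF hgen
  have h4 : Real.sqrt |(discr Y : ℝ)| = |(r : ℝ)| * Real.sqrt N := by
    have e1 : (discr Y : ℝ) = (r : ℝ) ^ 2 * ((Algebra.norm ℚ d : ℚ) : ℝ) := by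
      exact_mod_cast congrArg (fun x : ℚ => (x : ℝ)) hdisc
    rw [e1, abs_mul, ← hN, Real.sqrt_mul (abs_nonneg _), abs_pow, Real.sqrt_sq (abs_nonneg _)]
  have hdK : (0 : ℝ) < |(discr K : ℝ)| := abs_pos.2 (by exact_mod_cast discr_ne_zero K)
  have h5 : (p.up Y).Om = Real.sqrt |(discr Y : ℝ)| * ∏ v, (p.up Y).at v := rfl
  have h6 : p.Om * q'.Om = |(discr K : ℝ)| * ((∏ u, p.at u) * ∏ u, q'.at u) := by
    have e1 : p.Om = Real.sqrt |(discr K : ℝ)| * ∏ v, p.at v := rfl
    have e2 : q'.Om = Real.sqrt |(discr K : ℝ)| * ∏ v, q'.at v := rfl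
    rw [e1, e2]
    have e3 := Real.mul_self_sqrt hdK.le
    linear_combination ((∏ u, p.at u) * ∏ u, q'.at u) * e3
  obtain ⟨a, ha, ha'⟩ := h1.trans h2.symm
  rw [h5, h6, h4, ha']
  refine ⟨|r| * a * |Algebra.norm ℚ d| / |(discr K : ℚ)|, ?_, ?_⟩
  · exact div_ne_zero (mul_ne_zero (mul_ne_zero (abs_ne_zero.2 hr) ha) (abs_ne_zero.2 hn0))
      (abs_ne_zero.2 (by exact_mod_cast discr_ne_zero K))
  · have e4 := Real.mul_self_sqrt hNpos.le
    have e5 : (((|r| * a * |Algebra.norm ℚ d| / |(discr K : ℚ)| : ℚ)) : ℝ) =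
        |(r : ℝ)| * a * N / |(discr K : ℝ)| := by
      rw [hN]
      push_cast
      rfl
    rw [e5]
    field_simp
    rw [sq, e4]
    ring

end

end Pool.Agent.H453.OM
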